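import Pool.Agent.Lib.MP_5c0be7_lc.C.St
import Pool.Agent.Lib.MP_5c0be7_lc.K.StReal

/-!
Project KM, blocks F11, F12, F13: phalanx comparison, cores, condensation. Statements.
-/

namespace Pool.Agent.KM

open Ordinal Tr

universe u

/-- `s` embeds `(E1, b1 + 1)` in the realisable premouse `(E, b + 1)` with critical point `a`. -/
structure PhxIn (C : Cfg.{u}) (g : Ordinal.{u}) (E : Seq.{u}) (b : Ordinal.{u}) (E1 : Seq.{u})
    (b1 : Ordinal.{u}) (s : Ordinal.{u} → Ordinal.{u}) (a : Ordinal.{u}) : Prop where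
  pm : PM E (b + 1)
  pm1 : PM E1 (b1 + 1)
  ii : II C g E b
  cut : CutPt E b g
  str : Strong E1 (b1 + 1) E (b + 1) s
  fix : ∀ x < a, s x = x
  le : a ≤ b1
  move : a < s a
  card : IsCard E1 (b1 + 1) a
  gle : g ≤ a

/-- The result of comparing the phalanx with the premouse. -/
structure PhxOut (g : Ordinal.{u}) (E : Seq.{u}) (b : Ordinal.{u}) (E1 : Seq.{u})
    (b1 : Ordinal.{u}) (s : Ordinal.{u} → Ordinal.{u}) (a : Ordinal.{u}) (T : IT.{u})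
    (l : Ordinal.{u}) (U : IT.{u}) (m : Ordinal.{u}) : Prop where
  eqT : (IT.two E b E1 b1 a).EqLt T 2
  eqU : (IT.one E b).EqLt U 1
  coit : T.Coit l U m
  abT : T.Above g l
  abU : U.Above g m
  nuT : ∀ i, 1 ≤ i → i < l → a < T.nu i
  nuU : ∀ j < m, a < U.nu j
  laU : ∀ j < m, a ≤ U.la j
  nd : T.ND 1 l
  le : T.b l ≤ U.b m
  dj : U.ND 0 m → T.b l = U.b m → ∀ x ≤ b1, T.mp 1 l x ≤ U.mp 0 m (s x)

/-- `p` is the greedy solid parameter of level `d`, and `k` is where the search stops. -/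
structure Greedy (E : Seq.{u}) (d k : Ordinal.{u}) (p : Tr.{u}) : Prop where
  mem : In d p
  solid : Solid E d p
  ge : ∀ a ∈ p.lv, k ≤ a
  new : ¬ Named E d k (Th E d p)
  old : ∀ k' < k, Named E d k' (Th E d p)
  lim : ¬ Suc k

/-- Maps along branches. -/
class BrSt : Prop where
  cof : ∀ {T : IT.{u}} {l i j}, T.IsTr l → j ≤ l → T.ND i j →
    Cof (T.E i) (T.b i) (T.E j) (T.b j) (T.mp i j)
  close : ∀ {T : IT.{u}} {l i}, T.IsTr l → T.n ≤ i → T.Le T.n l → T.ND i l →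
    Close (T.E i) (T.b i + 1) (T.E l) (T.b l + 1) (T.mp i l)
  close' : ∀ {T : IT.{u}} {l k}, T.IsTr l → T.n ≤ k → k < l → T.Le T.n l → T.ND (k + 1) l →
    Close (T.E (T.pr k)) (T.st k + 1) (T.E l) (T.b l + 1) (T.mp (k + 1) l ∘ T.im k)
  core : ∀ {T : IT.{u}} {l k}, T.IsTr l → T.n ≤ k → k < l → T.Drop k → T.ND (k + 1) l →
    CoreMap (T.E (T.pr k)) (T.st k) (T.E l) (T.b l) (T.mp (k + 1) l ∘ T.im k)
  rho : ∀ {T : IT.{u}} {l i}, T.IsTr l → T.n ≤ i → T.Le T.n l → T.ND i l →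
    ∀ k < rho (T.E i) (T.b i + 1), T.mp i l k < rho (T.E l) (T.b l + 1)

/-- The Dodd-Jensen lemma above the second root. -/
class DJ1St : Prop where
  two1 : ∀ {C : Cfg.{u}} {g b b' a j : Ordinal.{u}} {E E' : Seq.{u}} {T : IT.{u}} {s f},
    II C g E b → Good E' b' E s → s b' = b → (∀ x < a, s x = x) →
    (IT.two E b E' b' a).EqLt T 2 → T.IsTr j → T.Above g j → T.Root 1 j → g ≤ b →
    Good E b (T.E j) f → f b ≤ T.b j →
    T.ND 1 j ∧ f b = T.b j ∧ ∀ x ≤ b', T.mp 1 j x ≤ f (s x)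

/-- F11: comparison of the phalanx. -/
class PhxSt : Prop where
  phx : ∀ {C : Cfg.{u}} {g E b E1 b1 s a}, PhxIn C g E b E1 b1 s a →
    ∃ T l U m, PhxOut g E b E1 b1 s a T l U m

/-- F12: existence of cores. -/
class CoreSt : Prop where
  core : ∀ {C : Cfg.{u}} {g b : Ordinal.{u}} {E : Seq.{u}}, PM E (b + 1) → II C g E b →
    CutPt E b g → g ≤ rho E (b + 1) →
    ∃ E0 b0 s, PM E0 (b0 + 1) ∧ Lev E0 (b0 + 1) ∧ Strong E0 (b0 + 1) E (b + 1) s ∧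
      g ≤ rho E0 (b0 + 1) ∧ (∀ x < rho E0 (b0 + 1), s x = x) ∧
      ∀ a ≤ b, rho E a ≤ rho E0 (b0 + 1) → a ≤ b0 ∧ Agree E0 E (a + 1)

/-- F13: condensation. -/
class CndSt : Prop where
  cond : ∀ {C : Cfg.{u}} {g b b0 r : Ordinal.{u}} {E E0 : Seq.{u}} {s}, PM E0 (b0 + 1) →
    Lev E0 (b0 + 1) → PM E (b + 1) → II C g E b → CutPt E b g →
    Strong E0 (b0 + 1) E (b + 1) s → rho E0 (b0 + 1) ≤ r → r ≤ b0 → g ≤ r → (∀ x < r, s x = x) →
    r < s r → IsCard E (b + 1) r → r < rho E (b + 1) → b0 + 1 ≤ b ∧ Agree E0 E (b0 + 1)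

end Pool.Agent.KM
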