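import Pool.Agent.Lib.MP_5c0be7_lc.P.Phx

/-!
Project KM, block F13: condensation.
-/

namespace Pool.Agent.KM

open Ordinal Tr

universe u

namespace Cnd

variable {C : Cfg.{u}} {E E' E0 : Seq.{u}} {a b b0 d d' g k l m r : Ordinal.{u}} {T U : IT.{u}}
  {s : Ordinal.{u} → Ordinal.{u}} {A : Tr.{u} → Prop} {x q : Tr.{u}}

/-- Theories are preserved on a stratum fixed by a strong map. -/
theorem th_map (h : Strong E d E' d' s) (hk : k ≤ d) (hf : ∀ x < k, s x = x) (hx : In d x)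
    (hq : In k q) : Th E' d' (x.map s) q ↔ Th E d x q := by
  have e : q.snd.map s = q.snd := map_eq_self fun a ha => hf a (hq.snd a ha)
  have := h.commTop q.fst (node q.snd x) (by simp [hx, hq.snd.mono hk])
  rw [map_node, e] at this
  show (ev E' d' _ _).isSome = true ↔ (ev E d _ _).isSome = true
  rw [this, Option.isSome_map]

/-- A cardinal below the critical point comes down. -/
theorem card_down (h : Strong E0 (b0 + 1) E (b + 1) s) (hf : ∀ x < r, s x = x)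
    (hc : IsCard E (b + 1) r) : IsCard E0 (b0 + 1) r := fun a ha ha' => by
  by_contra hn
  have h1 := not_le.1 hn
  have h2 : b = s b0 := KE.s1inj (h.top b0 rfl)
  subst h2
  have h3 := (KE.strong_rho h (KE.le1 ha') (h1.le.trans (ha.trans (KE.le1 ha')))).not.2
    (lt_irrefl _)
  rw [hf _ h1] at h3
  exact h3 (h1.trans_le (hc _ (ha.trans (KE.w_self h.toWeak ha')) (h.maps a ha')))

variable [TreeSt.{u}]

/-- Small sets named in the last model of a normal tree are named in the last root. -/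
theorem back [AccSt.{u}] (h : T.IsTr l) (hN : T.Normal l) (hk : T.n < l → k < T.nu T.n)
    (hA : Named (T.E l) (T.b l + 1) k A) : Named (T.E T.n) (T.b T.n + 1) k A := by
  rcases h.le.lt_or_eq with h1 | h1
  · obtain ⟨h2, -, -, h3⟩ := TreeSt.nu_agree h hN le_rfl h1 le_rfl
    exact F3.named_mono (Seg.named_ag (KL.ag_symm h2) (AccSt.acc_card _ _ _ _ _ h3 (hk h1) hA))
      ((h.step _ le_rfl h1).use.le.trans (lt_add_one _).le) le_rfl
  · rwa [h1]

variable [CmpSt.{u}] [BrSt.{u}] [KeySt.{u}] [AccSt.{u}] [PhxSt.{u}]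

theorem cond (h0 : PM E0 (b0 + 1)) (hl : Lev E0 (b0 + 1)) (hE : PM E (b + 1)) (hI : II C g E b)
    (hC : CutPt E b g) (hs : Strong E0 (b0 + 1) E (b + 1) s) (hr : rho E0 (b0 + 1) ≤ r)
    (hb : r ≤ b0) (hg : g ≤ r) (hf : ∀ x < r, s x = x) (hm : r < s r) (hc : IsCard E (b + 1) r)
    (hrho : r < rho E (b + 1)) : b0 + 1 ≤ b ∧ Agree E0 E (b0 + 1) := by
  obtain ⟨T, l, U, m, O⟩ :=
    PhxSt.phx (⟨hE, h0, hI, hC, hs, hf, hb, hm, card_down hs hf hc, hg⟩ : PhxIn C g E b E0 b0 s r)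
  have co := O.coit
  have Tn : T.n = 1 := O.eqT.n
  have Un : U.n = 0 := O.eqU.n
  have TE1 : T.E 1 = E0 := (O.eqT.E Phx.one_lt_two').trans Phx.two_E1
  have Tb1 : T.b 1 = b0 := (O.eqT.b Phx.one_lt_two').trans Phx.two_b1
  have Tla : T.la 0 = r := (O.eqT.la (by simp)).trans Phx.two_la
  have UE0 : U.E 0 = E := O.eqU.E zero_lt_one
  have Ub0 : U.b 0 = b := O.eqU.b zero_lt_one
  have cm : CoreMap E0 b0 (T.E l) (T.b l) (T.mp 1 l) :=
    { toCof := by have := BrSt.cof co.tr le_rfl O.nd; rwa [TE1, Tb1] at this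
      pm := h0.toPM0
      pm' := (TreeSt.pm co.tr le_rfl).toPM0
      sound := hl
      fix := fun x hx => TreeSt.fix co.tr le_rfl O.nd zero_lt_one x (Tla ▸ hx.trans_le hr)
      pp := fun A hA => by
        have := back co.tr co.nor (fun h => by
          rw [Tn] at h ⊢; exact hr.trans_lt (O.nuT 1 le_rfl h)) hA
        rwa [Tn, TE1, Tb1] at this }
  rcases O.le.lt_or_eq with hlt | heq
  · obtain ⟨e1, e2, -⟩ := KeySt.key cm (Seg.core_id cm.pm' (Seg.lev_left co hlt))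
    have e3 : Agree E0 (U.E m) (b0 + 1) := KL.ag_trans e2 (e1 ▸ Seg.ag_left co hlt.le)
    have e4 : b0 + 1 ≤ U.b m := e1 ▸ IT.s_le hlt
    rcases eq_or_ne m 0 with rfl | hm0
    · exact ⟨Ub0 ▸ e4, UE0 ▸ e3⟩
    · have hm1 := pos_iff_ne_zero.2 hm0
      obtain ⟨h2, -, -, h3⟩ := TreeSt.nu_agree co.tr' co.nor' Un.le hm1 le_rfl
      have h4 : b0 + 1 < U.nu 0 := by
        by_contra hn
        have := h3 _ (not_lt.1 hn) (KE.lt1 e4)
        rw [← KL.rho_suc e3] at this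
        exact (this.trans hr).not_gt (O.nuU 0 hm1)
      have h5 : U.nu 0 ≤ b := Ub0 ▸ (co.tr'.step 0 Un.le hm1).use.le
      exact ⟨h4.le.trans h5, KL.ag_trans e3 (UE0 ▸ KL.ag_mono (KL.ag_symm h2) h4.le)⟩
  · exfalso
    rcases TreeSt.last co.tr' le_rfl with ⟨r0, hr0, hn⟩ | ⟨j, hj, hjm, hdr, hd⟩
    · obtain rfl : r0 = 0 := nonpos_iff_eq_zero.1 (Un ▸ hr0.1)
      have h1 := BrSt.rho co.tr' Un.le (Un ▸ IT.le_zero) hn r (by rw [UE0, Ub0]; exact hrho)
      have h2 : r ≤ U.mp 0 m r := KE.w_self (TreeSt.strong co.tr' le_rfl hn).toWeak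
        (by rw [Ub0]; exact KE.lt1 (hrho.le.trans (F3.rho_top E b)))
      have h3 : rho E0 (b0 + 1) < rho (T.E l) (T.b l + 1) := by
        rw [KL.rho_suc (Seg.ag_left co heq.le), heq]
        exact (hr.trans h2).trans_lt h1
      obtain ⟨p, hp⟩ := hl.1
      refine F3.diag hp.2.2.2 (F3.named_congr
        (cm.pp _ (F3.named_of_lt h3 (KE.w_in cm.toWeak hp.1))) fun q hq => ?_)
      exact th_map cm.toStrong (rho_le _ _) cm.fix hp.1 hq
    · have c1 := Seg.core_ag cm (Seg.ag_left co heq.le)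
      rw [heq] at c1
      obtain ⟨e1, -, e2⟩ := KeySt.key c1 (BrSt.core co.tr' hj hjm hdr hd)
      rcases (O.nd.le).lt_or_eq with h1 | rfl
      · obtain ⟨i, hi, hil, -, hs', hd', he⟩ := Seg.first co.tr O.nd h1
        rw [Tb1] at hs' he
        exact Seg.noeq co hi hil hj hjm hd' hd heq fun x hx _ => by
          rw [← he x (hs' ▸ hx)]; exact e2 x (hs' ▸ hx)
      · have h4 : U.ka j ≤ b0 := e1 ▸ (Seg.ka_lt_st (co.tr'.step j hj hjm)).le
        have h5 := e2 _ h4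
        rw [Seg.mp_id co.tr le_rfl (Tb1 ▸ h4)] at h5
        exact (Seg.sg_move co.tr' hj hjm hd).ne h5

end Cnd

instance [TreeSt.{u}] [CmpSt.{u}] [BrSt.{u}] [KeySt.{u}] [AccSt.{u}] [PhxSt.{u}] : CndSt.{u} :=
  ⟨fun h0 hl hE hI hC hs hr hb hg hf hm hc hrho => Cnd.cond h0 hl hE hI hC hs hr hb hg hf hm hc hrho⟩

end Pool.Agent.KM
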