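import Pool.Agent.Lib.MP_5c0be7_lc.P.Core1

/-!
Project KM, block F12: existence of cores.
-/

set_option linter.unusedSectionVars false

namespace Pool.Agent.KM

universe u

namespace PC

open Ordinal Tr F3 PT PF PE
open scoped Classical

/-- `(E0, b0 + 1)` is the collapse of the hull of `k` and `p` in `(E, b + 1)`. -/
structure Hu (E : Seq.{u}) (b k : Ordinal.{u}) (p : Tr.{u}) (E0 : Seq.{u}) (b0 : Ordinal.{u})
    (s : Ordinal.{u} → Ordinal.{u}) (p0 : Tr.{u}) : Prop where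
  mono : StrictMono s
  pm : PM E0 (b0 + 1)
  str : Strong E0 (b0 + 1) E (b + 1) s
  fix : ∀ x < k, s x = x
  le : k ≤ b0
  mem : In (b0 + 1) p0
  map : p0.map s = p
  gen : Gen E0 (b0 + 1) k p0
  all : rho E b ≤ k → ∀ x ≤ b0, s x = x

/-- The hull keeps the subsets of the stratum `k`. -/
structure Rl (E : Seq.{u}) (b k : Ordinal.{u}) (E0 : Seq.{u}) (b0 : Ordinal.{u}) : Prop where
  lev : ∀ a ≤ b, rho E a ≤ k → a ≤ b0 ∧ Agree E0 E (a + 1)
  back : ∀ k' ≤ k, ∀ A, Named E (b + 1) k' A → Named E0 (b0 + 1) k' A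
  sec : Sec E0 (b0 + 1) E (b + 1) k

variable {E E0 : Seq.{u}} {a b b0 g k k' : Ordinal.{u}} {x p p0 q : Tr.{u}}
  {s : Ordinal.{u} → Ordinal.{u}} {C : Cfg.{u}}

theorem fix_of_sub (h : StrictMono s) (hk : ∀ x < k, ∃ y, s y = x) : ∀ x < k, s x = x := by
  intro x
  induction x using WellFoundedLT.induction with
  | ind x ih =>
  intro hx
  obtain ⟨y, rfl⟩ := hk x hx
  rcases (h.le_apply : y ≤ s y).lt_or_eq with h1 | h1
  · exact absurd (ih y h1 (h1.trans hx)) h1.ne'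
  · rw [← h1]; exact h1.symm

variable [HullSt.{u}] [CondSt.{u}]

theorem exists_hu (hE : PM E (b + 1)) (hk : k ≤ b) (hp : In (b + 1) p) :
    ∃ E0 b0 s p0, Hu E b k p E0 b0 s p0 := by
  obtain ⟨s, b0, h1, h2, h3, h4⟩ := HullSt.enum (E := E) (b := b)
    (Z := {y | InHull E (b + 1) (Set.Iio k ∪ p.lv) y}) (fun y hy => KE.le1 (HullSt.lt hy))
    fun y hy => HullSt.closed hy
  subst h2
  obtain ⟨-, h5, h6⟩ := CondSt.strong h1 hE.toPM0 h4
  have h7 : ∀ y ∈ Set.Iio k ∪ p.lv, ∃ z ≤ b0, s z = y := fun y hy =>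
    h3.symm.subset (HullSt.sub hy (hy.elim (fun h => KE.lt1 (le_trans (le_of_lt h) hk)) (hp y)))
  have hf : ∀ x < k, s x = x := fix_of_sub h1 fun x hx => (h7 x (Or.inl hx)).imp fun _ h => h.2
  have hk0 : k ≤ b0 := not_lt.1 fun h => (hf b0 h ▸ hk).not_gt h
  have h8 : (p.map (Function.invFun s)).map s = p := by
    rw [map_map]
    exact map_eq_self fun y hy => Function.invFun_eq ((h7 y (Or.inr hy)).imp fun _ h => h.2)
  have h9 : In (b0 + 1) (p.map (Function.invFun s)) := KE.in_map fun y hy => by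
    obtain ⟨z, g1, rfl⟩ := h7 y (Or.inr hy)
    rw [Function.leftInverse_invFun h1.injective]
    exact KE.lt1 g1
  refine ⟨_, b0, s, _, h1, h6 hE, h5, hf, hk0, h9, h8, fun t ht => ?_, fun hr x hx => ?_⟩
  · obtain ⟨c, x, g1, g2⟩ := (HullSt.tree (E := E) (d := s b0 + 1) (X := Set.Iio k ∪ p.lv)
      (w := t.map s)).1 (by
        rw [lv_map]
        rintro _ ⟨y, hy, rfl⟩
        exact h3.subset ⟨y, KE.le1 (ht y hy), rfl⟩)
    obtain ⟨c', z, g3, g4⟩ := ex_val (E := E) hp (hk.trans le_self_add) g1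
    have g5 := h5.commTop (cmp .fst c c') (node z _)
      ((in_node _ _ _).2 ⟨g3.mono (hk0.trans le_self_add), h9⟩)
    rw [map_node, h8, map_fix hf g3, ev_cmp, g4, Option.bind_some] at g5
    obtain ⟨t', g6, g7⟩ := Option.map_eq_some_iff.1 (g5.symm.trans g2)
    exact ⟨_, z, g3, g6.trans (congrArg some (KE.map_inj h5.mono (ev_in g6) ht g7))⟩
  · refine fix_of_sub (k := s b0 + 1) h1 (fun y hy => ?_) x (KE.lt1 (hx.trans h1.le_apply))
    obtain ⟨c, v, g1, g2⟩ := gen_mono (gen_succ (hE.ls _ (lt_add_one _)).1) hr (leaf y)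
      (by simpa using hy)
    obtain ⟨z, _, g3⟩ := h3.symm.subset (show InHull E (s b0 + 1) (Set.Iio k ∪ p.lv) y from
      ⟨c, _, fun a ha => Or.inl (g1 a (by simpa using ha)), g2⟩)
    exact ⟨z, g3⟩

variable [TreeSt.{u}] [BrSt.{u}] [PresSt.{u}] [AgreeSt.{u}] [PhxSt.{u}]

theorem exists_rl (hE : PM E (b + 1)) (ii : II C g E b) (cut : CutPt E b g) (hg : g ≤ k)
    (G : Greedy E (b + 1) k p) (H : Hu E b k p E0 b0 s p0) : Rl E b k E0 b0 := by
  by_cases h0 : ∀ x ≤ b0, s x = x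
  · obtain rfl : b = b0 := (KE.s1inj (H.str.top _ rfl)).trans (h0 _ le_rfl)
    have ag : Agree E0 E (b + 1) := AgreeSt.of_fix H.pm.toPM0 hE.toPM0 H.str.toWeak le_rfl
      fun x hx => h0 x (KE.le1 hx)
    exact ⟨fun a ha _ => ⟨ha, KL.ag_mono ag (add_le_add_left ha 1)⟩,
      fun _ _ _ h => named_ag (KL.ag_symm ag) h, fun x hx => ⟨x, fun q => q, hx, p_id,
        fun q _ => by simp only [ThL, KL.ev_suc ag _ le_rfl]⟩⟩
  have hr : k < rho E b := not_le.1 fun h => h0 (H.all h)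
  obtain ⟨a, ⟨h1, h2⟩, h3⟩ := (wellFounded_lt (α := Ordinal.{u})).has_min
    {x | x ≤ b0 ∧ s x ≠ x} (by_contra fun h => h0 fun x hx => by_contra fun h1 => h ⟨x, hx, h1⟩)
  have hf : ∀ x < a, s x = x := fun x hx => by_contra fun h => h3 x ⟨hx.le.trans h1, h⟩ hx
  have hk : k ≤ a := not_lt.1 fun h => h2 (H.fix a h)
  have hm : a < s a := lt_of_le_of_ne H.mono.le_apply (Ne.symm h2)
  have hi : PhxIn C g E b E0 b0 s a :=
    ⟨hE, H.pm, ii, cut, H.str, hf, h1, hm, crit_card H.str hE.ls hf h1 hm, hg.trans hk⟩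
  obtain ⟨T, l, U, m, o⟩ := PhxSt.phx hi
  obtain ⟨hb, nd, fx⟩ := cmp_out hi o hk hr H.mem (H.map.symm ▸ G)
  have hU := o.coit.tr'
  have sU := TreeSt.strong hU le_rfl nd
  rw [EU o, bU o] at sU
  have ag := agPQ o
  have hkb : k ≤ b + 1 := (hr.le.trans (rho_le _ _)).trans le_self_add
  have push : ∀ k' ≤ k, ∀ A, Named E (b + 1) k' A → Named (U.E m) (U.b m + 1) k' A :=
    fun k' h A hA => named_push sU.toWeak (fun y hy => fx y (hy.trans_le h)) (h.trans hkb) hA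
  refine ⟨fun c c1 c2 => ?_, fun k' h A hA => backT o (h.trans hk)
    (named_ag (KL.ag_symm ag) (hb ▸ push k' h A hA)), fun x hx => ?_⟩
  · have hQ := topU o hk hr le_rfl
    obtain ⟨t, ht⟩ := KL.exists_next (E := U.E m) (KE.lt1 (hQ.le.trans (rho_le _ _)))
    have t1 : t ≤ U.b m := KE.le1 (lt_of_le_of_ne ht.2.1 fun h => by
      obtain ⟨a, g1, g2, g3⟩ := ht.2.2.1 (U.b m) (h ▸ lt_add_one _)
      exact hQ.not_ge (le_antisymm (KE.le1 (h ▸ g2)) g1 ▸ g3))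
    obtain ⟨-, t2⟩ := next_ag hU o.coit.nor'
      (fun h => by rw [nU o] at h ⊢; exact hk.trans_lt (o.nuU 0 h)) ht.2.2.1 t1
    have ag' : Agree (T.E l) (U.E m) t := KL.ag_mono ag ((hb ▸ t1).trans le_self_add)
    obtain ⟨t3, t4⟩ := next_ag o.coit.tr o.coit.nor
      (fun h => by rw [nT o] at h ⊢; exact hk.trans_lt (o.nuT 1 le_rfl h))
      (KL.topC_ag (KL.ag_symm ag') ht.2.2.1) (hb ▸ t1)
    rw [nU o, EU o] at t2
    rw [nT o, bT o] at t3
    rw [nT o, ET o] at t4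
    have t5 : c < t := not_le.1 fun h => by
      have g1 : c < b := lt_of_le_of_ne c1 fun e => hr.not_ge (e ▸ c2)
      exact diag (lev_gen (hE.ls c (KE.lt1 c1)) c2) (named_mono (named_ag (KL.ag_symm t2)
        (AccSt.acc _ _ _ _ _ ht.2.2.2 (push k le_rfl _ (th_up (KE.s1lt g1)
          ((ht.1.le.trans h).trans le_self_add) (in_pp E c))))) h le_rfl)
    exact ⟨t5.le.trans t3, KL.ag_mono (KL.ag_trans (KL.ag_trans t4 ag') (KL.ag_symm t2))
      (Order.add_one_le_iff.2 t5)⟩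
  · have cl := BrSt.close o.coit.tr (nT o).le (nT o ▸ o.nd.1) o.nd
    rw [ET o, bT o] at cl
    obtain ⟨w, g, g1, g2, g3⟩ := close_sec cl (fun y hy => fixT o (hy.trans_le hk))
      (H.le.trans le_self_add) (x.map (U.mp 0 m)) (hb ▸ KN.in_map' sU.maps hx)
    refine ⟨w, g, g1, g2, fun q hq => ?_⟩
    rw [← g3 q hq, ← th_comm sU.commTop fx hkb hx hq, ← hb]
    simp only [ThL, KL.ev_suc ag _ le_rfl]

theorem th_hu (H : Hu E b k p E0 b0 s p0) (hx : In (b0 + 1) x) (hq : In k q) :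
    Th E (b + 1) (x.map s) q ↔ Th E0 (b0 + 1) x q :=
  th_comm H.str.commTop H.fix (H.le.trans le_self_add) hx hq

theorem old_hu (G : Greedy E (b + 1) k p) (H : Hu E b k p E0 b0 s p0) (hb : k ≤ b) (hk : k' < k)
    (hx : In (b0 + 1) x) : Named E (b + 1) k' (Th E0 (b0 + 1) x) := by
  obtain ⟨c, v, h1, h2⟩ := H.gen x hx
  have h3 := H.str.commTop c _ (in_of_ev_eq h2)
  rw [h2, map_node, H.map, map_fix H.fix h1] at h3
  have h4 : max k' v.ht < k := max_lt hk (h1.ht_lt (limit_of_not_suc G.lim (pos_of_gt hk).ne'))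
  exact named_congr (th_gen (G.old _ h4) (le_max_left _ _) (KE.lt1 (h4.le.trans hb))
    (ht_le_iff.1 (le_max_right _ _)) h3) fun q hq => th_hu H hx (hq.mono hk.le)

/-- The greedy search stops at the projectum. -/
theorem rho_eq (G : Greedy E (b + 1) k p) (H : Hu E b k p E0 b0 s p0) (R : Rl E b k E0 b0)
    (hb : k ≤ b) : rho E (b + 1) = k := by
  refine le_antisymm (rho_le_of G.mem G.new) (le_of_forall_lt fun k' hk => lt_rho_iff.2
    ⟨KE.lt1 (hk.le.trans hb), fun x hx => ?_⟩)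
  obtain ⟨w, g, h1, h2, h3⟩ := R.sec x hx
  exact sec_named h2 hk.le h3 (KE.lt1 (hk.le.trans hb)) (old_hu G H hb hk h1)

theorem rho_hu (G : Greedy E (b + 1) k p) (H : Hu E b k p E0 b0 s p0) (R : Rl E b k E0 b0)
    (hb : k ≤ b) : rho E0 (b0 + 1) = k :=
  le_antisymm (gen_rho H.gen) (le_of_forall_lt fun _ hk => lt_rho_iff.2
    ⟨KE.lt1 (hk.le.trans H.le), fun _ hx => R.back _ hk.le _ (old_hu G H hb hk hx)⟩)

theorem lv_eq (G : Greedy E (b + 1) k p) (H : Hu E b k p E0 b0 s p0) (R : Rl E b k E0 b0)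
    (G0 : Greedy E0 (b0 + 1) k q) : p0.lv = q.lv := by
  by_contra hne
  obtain ⟨h, hh, hm⟩ := Set.exists_max_image {a | ¬ (a ∈ p0.lv ↔ a ∈ q.lv)} id
    ((p0.lv_finite.union q.lv_finite).subset fun a ha => by_contra fun h => ha (by simp_all))
    (by_contra fun h => hne (Set.ext fun a => by_contra fun h1 => h ⟨a, h1⟩))
  have hm' : ∀ a, h < a → (a ∈ p0.lv ↔ a ∈ q.lv) := fun a ha =>
    by_contra fun h1 => (hm a h1).not_gt ha
  by_cases h1 : h ∈ p0.lv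
  · have h2 : h ∉ q.lv := fun h2 => hh (iff_of_true h1 h2)
    have h3 : s h ∈ p.lv := H.map ▸ lv_map _ _ ▸ ⟨h, h1, rfl⟩
    obtain ⟨s1, h4, h5⟩ := solid_tail G.solid h3
    refine G0.new (R.back _ le_rfl _ (named_congr (th_lv h5 (G.ge _ h3) (G.mem _ h3)
      (fun z hz => G.mem z (h4 ▸ hz : z ∈ {z ∈ p.lv | s h < z}).1) fun z hz => ?_)
      fun _ hq => th_hu H G0.mem hq))
    obtain ⟨z, g1, rfl⟩ : z ∈ s '' q.lv := lv_map _ _ ▸ hz
    rcases lt_trichotomy z h with g2 | rfl | g2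
    · exact Or.inl (H.mono g2)
    · exact absurd g1 h2
    · exact Or.inr (h4 ▸ ⟨H.map ▸ lv_map _ _ ▸ ⟨z, (hm' z g2).2 g1, rfl⟩, H.mono g2⟩)
  · have h2 : h ∈ q.lv := by_contra fun h2 => hh (iff_of_false h1 h2)
    obtain ⟨s1, h4, h5⟩ := solid_tail G0.solid h2
    refine diag (gen_change H.gen (G0.ge _ h2) (G0.mem _ h2).le
      (fun z hz => G0.mem z (h4 ▸ hz : z ∈ {z ∈ q.lv | h < z}).1) fun z hz => ?_) h5
    rcases lt_trichotomy z h with g2 | rfl | g2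
    · exact Or.inl g2
    · exact absurd hz h1
    · exact Or.inr (h4 ▸ ⟨(hm' z g2).1 hz, g2⟩)

theorem cut_down (hE : PM0 E (b + 1)) (cut : CutPt E b g) (hg : g ≤ k)
    (H : Hu E b k p E0 b0 s p0) : CutPt E0 b0 g := by
  intro v k0 t e h1 h2 h3
  obtain rfl : b = s b0 := KE.s1inj (H.str.top _ rfl)
  obtain ⟨e', h4, -⟩ := KActSt.good_act H.pm.toPM0 hE
    (KGoodSt.strong_good H.pm.toPM0 hE H.str) h2 h3
  have h5 := cut _ _ _ _ (h1.trans H.mono.le_apply) (H.mono.monotone h2) h4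
  exact not_lt.1 fun h => (H.fix _ (h.trans_le hg) ▸ h5).not_gt h

variable [KIISt.{u}]

/-- The core, with all its properties. -/
theorem core_full (hE : PM E (b + 1)) (ii : II C g E b) (cut : CutPt E b g)
    (hg : g ≤ rho E (b + 1)) : ∃ p E0 b0 s p0, Greedy E (b + 1) (rho E (b + 1)) p ∧
      Hu E b (rho E (b + 1)) p E0 b0 s p0 ∧ Rl E b (rho E (b + 1)) E0 b0 ∧
      rho E0 (b0 + 1) = rho E (b + 1) ∧ Lev E0 (b0 + 1) ∧ (pp E0 (b0 + 1)).lv = p0.lv := by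
  have main : ∀ {E : Seq.{u}} {b}, PM E (b + 1) → II C g E b → CutPt E b g → g ≤ rho E (b + 1) →
      ∃ p E0 b0 s p0, Greedy E (b + 1) (rho E (b + 1)) p ∧
        Hu E b (rho E (b + 1)) p E0 b0 s p0 ∧ Rl E b (rho E (b + 1)) E0 b0 := by
    intro E b hE ii cut hg
    obtain ⟨k, p, hk, G⟩ := greedy E b
    obtain ⟨E0, b0, s, p0, H⟩ := exists_hu hE hk G.mem
    have R := exists_rl hE ii cut (hg.trans (rho_le_of G.mem G.new)) G H
    rw [rho_eq G H R hk]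
    exact ⟨p, E0, b0, s, p0, G, H, R⟩
  obtain ⟨p, E0, b0, s, p0, G, H, R⟩ := main hE ii cut hg
  have h1 := rho_hu G H R (rho_top E b)
  have hb : b = s b0 := KE.s1inj (H.str.top _ rfl)
  obtain ⟨q, -, -, -, -, G0, -⟩ := main H.pm (KIISt.pre (hb ▸ ii)
    (KGoodSt.strong_good H.pm.toPM0 (hb ▸ hE.toPM0) (hb ▸ H.str))
    fun x _ h => h.trans H.mono.le_apply) (cut_down hE.toPM0 cut hg H) (h1 ▸ hg)
  have h2 := lv_eq G H R (h1 ▸ G0)
  have h3 : SS E0 (b0 + 1) q := ⟨G0.mem, G0.ge, G0.solid,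
    gen_change H.gen h1.ge (rho_le _ _) G0.mem fun a ha => Or.inr (h2 ▸ ha)⟩
  exact ⟨p, E0, b0, s, p0, G, H, R, h1, ⟨⟨q, h3⟩, fun h => absurd (suc_succ b0) h⟩,
    by rw [ss_unique (ss_pp ⟨q, h3⟩) h3, h2]⟩

end PC

instance [HullSt.{u}] [CondSt.{u}] [TreeSt.{u}] [BrSt.{u}] [PresSt.{u}] [AgreeSt.{u}] [PhxSt.{u}]
    [KIISt.{u}] : CoreSt.{u} where
  core hE ii cut hg :=
    let ⟨_, E0, b0, s, _, _, H, R, h1, h2, _⟩ := PC.core_full hE ii cut hg
    ⟨E0, b0, s, H.pm, h2, H.str, h1 ▸ hg, h1 ▸ H.fix, h1 ▸ R.lev⟩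

end Pool.Agent.KM
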