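import Pool.Agent.Lib.MP_5c0be7_lc.P.Th
import Pool.Agent.Lib.MP_5c0be7_lc.F.StTree
import Pool.Agent.Lib.MP_5c0be7_lc.K.ActI

/-!
Project KM, block F12: consequences of the phalanx comparison.
-/

set_option linter.unusedSectionVars false

namespace Pool.Agent.KM.PF

open Ordinal Tr F3 PT
open scoped Classical

universe u

variable [TreeSt.{u}] {T U : IT.{u}} {l m i j k : Ordinal.{u}}

theorem isTr_mono (h : T.IsTr l) (hn : T.n ≤ j) (hj : j ≤ l) : T.IsTr j :=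
  ⟨h.phal, hn, fun i h1 h2 => h.step i h1 (h2.trans_le hj),
    fun c h1 h2 h3 => h.lim c h1 (h2.trans hj) h3⟩

theorem nd_top (h : T.IsTr l) (hj : j ≤ l) (hn : T.ND i j) : T.mp i j (T.b i) = T.b j :=
  (KE.s1inj ((TreeSt.strong h hj hn).top _ rfl)).symm

theorem nd_strong (h : T.IsTr l) (hj : j ≤ l) (hn : T.ND i j) :
    Strong (T.E i) (T.b i + 1) (T.E j) (T.mp i j (T.b i) + 1) (T.mp i j) :=
  (nd_top h hj hn).symm ▸ TreeSt.strong h hj hn

theorem nd_rho (h : T.IsTr l) (hj : j ≤ l) (hn : T.ND i j) {x} (hx : x < rho (T.E i) (T.b i)) :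
    T.mp i j x < rho (T.E j) (T.b j) :=
  nd_top h hj hn ▸ (KE.strong_rho (nd_strong h hj hn) le_rfl (hx.le.trans (rho_le _ _))).2 hx

theorem nd_self (h : T.IsTr l) (hj : j ≤ l) (hn : T.ND i j) {x} (hx : x ≤ T.b i) :
    x ≤ T.mp i j x := KE.w_self (TreeSt.strong h hj hn).toWeak (KE.lt1 hx)

theorem ka_lt (h : T.Step k) : T.ka k < T.st k := h.ult.lt.trans_le (rho_le _ _)

theorem im_ka (h : T.Step k) : T.im k (T.ka k) = T.la k :=
  (h.ext _ h.use.act.lt).trans h.la.symm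

theorem im_fix (h : T.Step k) {x} (hx : x < T.ka k) : T.im k x = x :=
  (h.ext _ (hx.trans h.use.act.lt)).trans (h.use.act.fix x hx)

theorem ka_la (h : T.Step k) : T.ka k < T.la k := h.la ▸ h.use.act.move

/-- The map from the model to which step `k` is applied fixes the critical point pointwise. -/
theorem seg_fix (h : T.IsTr l) (hn : T.n ≤ k) (hk : k < l) (hj : j ≤ l) (hd : T.ND (k + 1) j) {x}
    (hx : x < T.ka k) : (T.mp (k + 1) j ∘ T.im k) x = x := by
  have hs := h.step k hn hk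
  rw [Function.comp, im_fix hs hx]
  exact TreeSt.fix h hj hd (lt_add_one k) x (hx.trans (ka_la hs))

theorem seg_rho (h : T.IsTr l) (hn : T.n ≤ k) (hk : k < l) (hj : j ≤ l) (hd : T.ND (k + 1) j) :
    T.la k < rho (T.E j) (T.b j) := by
  have hs := h.step k hn hk
  have h1 : T.la k < rho (T.E (k + 1)) (T.b (k + 1)) := by
    rw [← im_ka hs, hs.b]
    exact (KE.strong_rho hs.ult.toStrong le_rfl (ka_lt hs).le).2 hs.ult.lt
  exact (nd_self h hj hd (h1.le.trans (rho_le _ _))).trans_lt (nd_rho h hj hd h1)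

theorem nd_succ (hn : T.n ≤ k) (hp : T.pr k = i) (hi : i ≤ k) (hd : ¬ T.Drop k)
    (h : T.Le i k) : T.ND i (k + 1) := by
  refine ⟨⟨hi.trans le_self_add, fun c h1 h2 h3 => ?_⟩, fun c h1 h2 => ?_⟩
  · rcases (KE.le1 h2).lt_or_eq with h4 | rfl
    · exact h.2 c h1 h4 h3
    · exact hp.ge
  · obtain rfl : c = k + 1 := by
      by_contra hc
      have h3 : c ≤ k := KE.le1 (lt_of_le_of_ne h2.1 hc)
      exact absurd (hp ▸ h2.2 k h3 (lt_add_one k) hn) (not_le.2 h1)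
    exact ⟨KE.lt1 hn, fun k' e => KE.s1inj e ▸ hd⟩

theorem mp_id (h : T.IsTr l) (hj : j ≤ l) {x} (hx : x ≤ T.b j) : T.mp j j x = x := by
  rcases le_or_gt j T.n with h1 | h1
  · exact h.phal.id j h1 x hx
  · by_cases hc : Suc j
    · obtain ⟨c, rfl⟩ := hc
      exact (h.step c (KE.le1 h1) ((lt_add_one c).trans_le hj)).id x hx
    · exact (h.lim j h1 hj (limit_of_not_suc hc (pos_of_gt h1).ne')).id x hx

/-- The first step on a branch without drops. -/
theorem first (h : T.IsTr l) (hd : T.ND i l) (hi : i < l) : ∃ k, T.n ≤ k ∧ k < l ∧ T.pr k = i ∧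
    T.st k = T.b i ∧ T.ND (k + 1) l ∧
    ∀ x ≤ T.b i, T.mp i l x = (T.mp (k + 1) l ∘ T.im k) x := by
  obtain ⟨k, h1, h2, h3, h4, h5⟩ := TreeSt.next h le_rfl hd hi
  have hs := h.step k h1 h2
  have h6 : T.Le i k := h3 ▸ TreeSt.pred_le (isTr_mono h h1 h2.le) hs.use hs.pred
  have h7 := nd_succ h1 h3 h6.1 h4 h6
  refine ⟨k, h1, h2, h3, h3 ▸ le_antisymm hs.pred.st_le (not_lt.1 h4), h5, fun x hx => ?_⟩
  rw [← TreeSt.comp h le_rfl h7 h5 x hx, hs.mp i h6.1 h7 x hx, h3,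
    mp_id h (h6.1.trans h2.le) hx, Function.comp]

variable [AccSt.{u}]

/-- Sets named at a later node are named at the last root. -/
theorem back (h : T.IsTr l) (hn : T.Normal l) (hi : T.n ≤ i) (hl : i ≤ l)
    (hk : T.n < l → k < T.nu T.n) {A} (H : Named (T.E i) (T.b i + 1) k A) :
    Named (T.E T.n) (T.b T.n + 1) k A := by
  rcases hi.lt_or_eq with h1 | rfl
  · obtain ⟨h2, _, _, h3⟩ := TreeSt.nu_agree h hn le_rfl h1 hl
    exact named_mono (named_ag (KL.ag_symm h2) (AccSt.acc_card _ _ _ _ _ h3 (hk (h1.trans_le hl)) H))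
      ((h.step _ le_rfl (h1.trans_le hl)).use.le.trans le_self_add) le_rfl
  · exact H

/-- Agreement of the last root with the last node below the successor of `k`. -/
theorem next_ag (h : T.IsTr l) (hn : T.Normal l) (hk : T.n < l → k < T.nu T.n) {t}
    (ht : TopC (T.E l) k t) (hb : t ≤ T.b l) : t ≤ T.b T.n ∧ Agree (T.E T.n) (T.E l) t := by
  rcases h.le.lt_or_eq with h1 | h1
  · obtain ⟨h2, _, _, h3⟩ := TreeSt.nu_agree h hn le_rfl h1 le_rfl
    have h4 : t ≤ T.nu T.n :=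
      KL.top_le ht (KL.noProj_mono (KL.card_noProj h3 (hk h1)) (hb.trans le_self_add))
    exact ⟨h4.trans (h.step _ le_rfl h1).use.le, KL.ag_mono h2 h4⟩
  · rw [h1]; exact ⟨hb, fun _ _ => rfl⟩

section Out

variable {g b b1 a : Ordinal.{u}} {E E1 : Seq.{u}} {s : Ordinal.{u} → Ordinal.{u}}
  (o : PhxOut g E b E1 b1 s a T l U m)
include o

omit [TreeSt.{u}] [AccSt.{u}] in
theorem nT : T.n = 1 := o.eqT.1
omit [TreeSt.{u}] [AccSt.{u}] in
theorem nU : U.n = 0 := o.eqU.1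
omit [TreeSt.{u}] [AccSt.{u}] in
theorem ndT : T.nd 1 = Nd.root E1 b1 a := by
  rw [o.eqT.2 1 (by simp)]; simp [IT.two]
omit [TreeSt.{u}] [AccSt.{u}] in
theorem ET : T.E 1 = E1 := by rw [IT.E, ndT o]; rfl
omit [TreeSt.{u}] [AccSt.{u}] in
theorem bT : T.b 1 = b1 := by rw [IT.b, ndT o]; rfl
omit [TreeSt.{u}] [AccSt.{u}] in
theorem laT : T.la 0 = a := by rw [IT.la, zero_add, ndT o]; rfl
omit [TreeSt.{u}] [AccSt.{u}] in
theorem EU : U.E 0 = E := by rw [IT.E, o.eqU.2 0 (by simp)]; rfl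
omit [TreeSt.{u}] [AccSt.{u}] in
theorem bU : U.b 0 = b := by rw [IT.b, o.eqU.2 0 (by simp)]; rfl

omit [AccSt.{u}] in
theorem fixT {x} (hx : x < a) : T.mp 1 l x = x :=
  TreeSt.fix o.coit.tr le_rfl o.nd zero_lt_one x (laT o ▸ hx)

omit [AccSt.{u}] in
theorem strT : Strong E1 (b1 + 1) (T.E l) (T.b l + 1) (T.mp 1 l) := by
  have := TreeSt.strong o.coit.tr le_rfl o.nd
  rwa [ET o, bT o] at this

theorem backU (hk : k ≤ a) (hi : i ≤ m) {A} (H : Named (U.E i) (U.b i + 1) k A) :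
    Named E (b + 1) k A := by
  have := back o.coit.tr' o.coit.nor' (nU o ▸ zero_le) hi
    (fun h => by rw [nU o] at h ⊢; exact hk.trans_lt (o.nuU 0 h)) H
  rwa [nU o, EU o, bU o] at this

theorem backT (hk : k ≤ a) {A} (H : Named (T.E l) (T.b l + 1) k A) : Named E1 (b1 + 1) k A := by
  have := back o.coit.tr o.coit.nor o.coit.tr.le le_rfl
    (fun h => by rw [nT o] at h ⊢; exact hk.trans_lt (o.nuT 1 le_rfl h)) H
  rwa [nT o, ET o, bT o] at this

omit [AccSt.{u}] in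
theorem topU (hk : k ≤ a) (hr : k < rho E b) (hi : i ≤ m) : k < rho (U.E i) (U.b i) := by
  rcases TreeSt.last o.coit.tr' hi with ⟨r, h1, h2⟩ | ⟨j, h1, h2, _, h3⟩
  · obtain rfl : r = 0 := le_antisymm (nU o ▸ h1.1) zero_le
    rw [← EU o, ← bU o] at hr
    exact (nd_self o.coit.tr' hi h2 (hr.le.trans (rho_le _ _))).trans_lt
      (nd_rho o.coit.tr' hi h2 hr)
  · exact (hk.trans (o.laU j (h2.trans_le hi))).trans_lt
      (seg_rho o.coit.tr' h1 (h2.trans_le hi) hi h3)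

theorem thU (hk : k ≤ a) (hr : k < rho E b) (hi : i ≤ m) {c x} (hc : c ≤ U.b i) (hkc : k ≤ c)
    (hx : In c x) : Named E (b + 1) k (Th (U.E i) c x) := by
  refine backU o hk hi ?_
  rcases hc.lt_or_eq with h | rfl
  · exact th_up (KE.s1lt h) (hkc.trans le_self_add) hx
  · exact named_mono (named_of_lt (topU o hk hr hi) hx) le_self_add le_rfl

omit [TreeSt.{u}] [AccSt.{u}] in
theorem agPQ : Agree (T.E l) (U.E m) (T.b l + 1) := by
  have := o.coit.agree
  rwa [min_eq_left o.le] at this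

end Out

end Pool.Agent.KM.PF
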