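import Pool.Agent.Lib.MP_5c0be7_lc.P.Eta
import Pool.Agent.Lib.MP_5c0be7_lc.P.Fac
import Pool.Agent.Lib.MP_5c0be7_lc.F.ActI
import Pool.Agent.Lib.MP_5c0be7_lc.L.St

/-!
Project KM, block F12: the comparison of a premouse with the hull of its greedy parameter.
-/

set_option linter.unusedSectionVars false

namespace Pool.Agent.KM.PC

open Ordinal Tr F3 PT PF PE
open scoped Classical

universe u

/-- Theories of `(E', d')` on the stratum `k` are sections of theories of `(E, d)`. -/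
def Sec (E : Seq.{u}) (d : Ordinal.{u}) (E' : Seq.{u}) (d' k : Ordinal.{u}) : Prop :=
  ∀ x, In d' x → ∃ w g, In d w ∧ IsP 0 g ∧ ∀ q, In k q → (Th E' d' x q ↔ Th E d w (g q))

variable {E E' E1 E2 : Seq.{u}} {a b b1 c d d' d2 g k k' : Ordinal.{u}} {x w p p0 : Tr.{u}}
  {j s : Ordinal.{u} → Ordinal.{u}}

theorem close_sec (cl : Close E d E' d' j) (hf : ∀ y < k, j y = y) (hk : k ≤ d) :
    Sec E d E' d' k := by
  intro x hx
  obtain ⟨o, w, hw, H⟩ := cl.wrap x hx
  obtain ⟨o1, o2, H1⟩ := ex_pre (f := fun t : Tr.{u} => node t.snd t.fst) (by fun_prop)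
  refine ⟨w, fun q => node (bop o (sq o1 o2 q.fst (opc .id))) q.snd, hw,
    by fun_prop (disch := simp), fun q hq => ?_⟩
  have h1 : In d' q.snd := map_fix hf hq.snd ▸ KN.in_map' cl.maps (hq.snd.mono hk)
  simp only [ThL, fst_node, snd_node]
  rw [← H _ _ (hq.snd.mono hk), map_fix hf hq.snd, H1 E' d' _ _ (by simp [hx, h1])]
  rfl

theorem sec_named {g : Tr.{u} → Tr.{u}} {A B : Tr.{u} → Prop} (hg : IsP 0 g) (hk : k' ≤ k)
    (H : ∀ q, In k q → (A q ↔ B (g q))) (hd : k' < d2) (hn : Named E2 d2 k' B) :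
    Named E2 d2 k' A :=
  named_congr (named_pre hn hd (pos_of_gt hd) hg fun _ hq => hg.in0 hq) fun q hq =>
    (H q (hq.mono hk)).symm

theorem s_pp (h : Strong E1 (b1 + 1) E (b + 1) s) (hc : c ≤ b1) :
    pp E (s c) = (pp E1 c).map s := by
  have hb : b = s b1 := KE.s1inj (h.top _ rfl)
  subst hb
  have := (KE.strong_restrict h hc).commTop parc .nil (by simp)
  rw [map_nil, ev_parc (by simp), ev_parc (by simp)] at this
  have := congrArg Tr.fst (Option.some.inj this)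
  rwa [map_fst] at this

/-- The critical point of a strong map is a cardinal of the source. -/
theorem crit_card (h : Strong E1 (b1 + 1) E (b + 1) s) (hE : LS E (b + 1))
    (hf : ∀ y < a, s y = y) (ha : a ≤ b1) (hm : a < s a) : IsCard E1 (b1 + 1) a := by
  intro c h1 h2
  by_contra hc
  have hc := not_le.1 hc
  have hb : b = s b1 := KE.s1inj (h.top _ rfl)
  have h3 : rho E (s c) ≤ rho E1 c := by
    have := (KE.strong_rho (hb ▸ h) (KE.le1 h2) (hc.le.trans ha)).not.2 (lt_irrefl _)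
    rwa [hf _ hc, not_lt] at this
  obtain ⟨c1, v, hv, e⟩ := lev_gen (hE _ (h.maps c h2)) h3 (leaf a)
    (by simpa using hm.trans_le ((KE.w_le h.toWeak (KE.lt1 ha) h2).2 h1))
  have h4 := h.comm c h2 c1 (node v (pp E1 c)) (by simp [in_pp, hv.mono (rho_le _ _)])
  rw [map_node, map_fix hf (hv.mono hc.le), ← s_pp h (KE.le1 h2), e] at h4
  obtain ⟨y, h5, h6⟩ := Option.map_eq_some_iff.1 h4.symm
  obtain ⟨z, rfl, h7⟩ := map_eq_leaf.1 h6
  have h8 : z < b1 + 1 := (show z < c by simpa using ev_in h5).trans h2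
  rcases lt_or_ge z a with h9 | h9
  · exact h9.ne ((hf z h9).symm.trans h7)
  · exact (hm.trans_le ((KE.w_le h.toWeak (KE.lt1 ha) h8).2 h9)).ne' h7

variable [TreeSt.{u}] [BrSt.{u}] [PresSt.{u}] [AgreeSt.{u}] {C : Cfg.{u}} {T U : IT.{u}} {l m : Ordinal.{u}}

theorem no_drop (hi : PhxIn C g E b E1 b1 s a) (o : PhxOut g E b E1 b1 s a T l U m) (hk : k ≤ a)
    (hr : k < rho E b) (hx : In (U.b m + 1) x)
    (no : ¬ Named E (b + 1) k (Th (U.E m) (U.b m + 1) x)) : U.ND 0 m := by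
  have hU := o.coit.tr'
  rcases TreeSt.last hU le_rfl with ⟨r, h1, h2⟩ | ⟨j, h1, h2, h3, h4⟩
  · obtain rfl : r = 0 := le_antisymm (nU o ▸ h1.1) zero_le
    exact h2
  refine (no ?_).elim
  have hs := hU.step j h1 h2
  have cl := BrSt.close' hU h1 h2 (nU o ▸ ⟨zero_le, fun _ _ _ _ => zero_le⟩) h4
  have hd : U.st j + 1 ≤ U.b (U.pr j) := Order.add_one_le_iff.2 h3
  rcases le_or_gt k (U.ka j) with h5 | h5
  · have h6 : k ≤ U.st j + 1 := (h5.trans (ka_lt hs).le).trans le_self_add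
    obtain ⟨w, g, hw, hg, H⟩ := close_sec cl
      (fun y hy => seg_fix hU h1 h2 le_rfl h4 (hy.trans_le h5)) h6 x hx
    exact sec_named hg le_rfl H (KE.lt1 (hr.le.trans (rho_le _ _)))
      (thU o hk hr (hs.pred.le.trans h2.le) hd h6 hw)
  · have hp : U.pr j = 0 := by
      by_contra hc
      have h6 := pos_iff_ne_zero.2 hc
      exact (h5.trans_le (hk.trans (o.laU 0 ((h6.trans_le hs.pred.le).trans h2)))).not_ge
        (hs.pred.min 0 h6)
    have hT := isTr_mono hU h1 h2.le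
    have ex := TreeSt.pred_ext hT hs.use hs.pred
    have ag := (TreeSt.pred_agree hT hs.use hs.pred).1
    have hρ := hs.pred.max h3
    have hc : U.st j < b := by rw [← bU o, ← hp]; exact h3
    rw [hp, EU o] at cl ex ag hρ
    have hla : U.ta j ≤ U.la j := hs.la ▸ (ActSt.lt ((TreeSt.pm hU h2.le).ls.mono
      (hs.use.le.trans le_self_add)) hs.use.act).le
    have hkt : a ≤ U.ta j := by
      by_contra hc'
      have hc' := not_le.1 hc'
      have g1 : Agree E (U.E j) a := by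
        rcases eq_or_ne j 0 with rfl | h0
        · rw [EU o]; exact fun _ _ => rfl
        · have := (TreeSt.nu_agree hU o.coit.nor' (nU o).le (pos_iff_ne_zero.2 h0) h2.le).1
          rw [EU o] at this
          exact KL.ag_mono this (o.nuU 0 (pos_of_gt h2)).le
      have g2 : Agree E1 E a := AgreeSt.of_fix hi.pm1.toPM0 hi.pm.toPM0 hi.str.toWeak
        (hi.le.trans le_self_add) hi.fix
      have g3 : NoProj E1 (U.ka j) (U.ta j) a := KL.noProj_ag (KL.ag_symm (KL.ag_trans g2 g1))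
        (KL.noProj_mono hs.use.act.next (o.nuU j h2).le)
      have g4 : NoProj E1 (U.ka j) (U.ta j + 1) (b1 + 1) := fun c c1 c2 =>
        (lt_or_ge c a).elim (g3 c (le_self_add.trans c1)) fun c3 =>
          (h5.trans_le hk).trans_le (hi.card c c3 c2)
      have hb : b = s b1 := KE.s1inj (hi.str.top _ rfl)
      have g5 := KE.good_noProj (KGoodSt.strong_good hi.pm1.toPM0 (hb ▸ hi.pm.toPM0)
        (hb ▸ hi.str)) (hc'.le.trans hi.le) g4
      rw [hi.fix _ hc', hi.fix _ (h5.trans_le hk), ← hb] at g5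
      exact (g5 _ (add_le_add_left hs.pred.ta_le 1) (KE.s1lt hc)).not_ge hρ
    refine eta_named hi.pm.ls (TreeSt.pm hU le_rfl).ls hc cl
      (fun y hy => seg_fix hU h1 h2 le_rfl h4 hy) ?_ ex.lt hs.pred.ta_le (KL.ext_lim ex) ex.top
      (KL.ag_trans ag (KL.ag_mono (TreeSt.agree hU h2 le_rfl) hla)) (hk.trans hkt) hρ
      (h5.trans hr) hx
    rw [Function.comp, im_ka hs]
    exact hla.trans (nd_self hU le_rfl h4
      (TreeSt.la_le hU h2 le_self_add (Order.add_one_le_iff.2 h2)))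

theorem cmp_par (hi : PhxIn C g E b E1 b1 s a) (o : PhxOut g E b E1 b1 s a T l U m) (hk : k ≤ a)
    (hr : k < rho E b) (hp : In (b1 + 1) p0) (G : Greedy E (b + 1) k (p0.map s)) :
    T.b l = U.b m ∧ U.ND 0 m ∧ p0.map (T.mp 1 l) = (p0.map s).map (U.mp 0 m) ∧
      ∀ y < k, U.mp 0 m y = y := by
  have hU := o.coit.tr'
  have sT := strT o
  have hx : In (T.b l + 1) (p0.map (T.mp 1 l)) := KN.in_map' sT.maps hp
  have hk1 : k ≤ b1 + 1 := (hk.trans hi.le).trans le_self_add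
  have no : ¬ Named E (b + 1) k (Th (U.E m) (T.b l + 1) (p0.map (T.mp 1 l))) := fun h =>
    G.new (named_congr h fun q hq => by
      rw [th_comm hi.str.commTop (fun y hy => hi.fix y (hy.trans_le hk)) hk1 hp hq,
        ← th_comm sT.commTop (fun y hy => fixT o (hy.trans_le hk)) hk1 hp hq]
      simp only [ThL, KL.ev_suc (agPQ o) _ le_rfl])
  have hkl : k ≤ T.b l := (hk.trans hi.le).trans ((KE.w_self sT.toWeak (lt_add_one b1)).trans
    (KE.le1 (sT.maps _ (lt_add_one b1))))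
  have hb : T.b l = U.b m := le_antisymm o.le (not_lt.1 fun h =>
    no (thU o hk hr le_rfl (Order.add_one_le_iff.2 h) (hkl.trans le_self_add) hx))
  rw [hb] at no hx hkl
  have nd := no_drop hi o hk hr hx no
  have cf := BrSt.cof hU le_rfl nd
  rw [EU o, bU o] at cf
  have hQ := (TreeSt.pm hU le_rfl).ls
  have hb' : b = s b1 := KE.s1inj (hi.str.top _ rfl)
  have he : p0.map (T.mp 1 l) = (p0.map s).map (U.mp 0 m) := by
    rw [map_map]
    refine map_congr fun y hy => by_contra fun hc => no (backU o hk le_rfl ?_)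
    obtain ⟨y, ⟨h1, h2⟩, h3⟩ := Set.exists_max_image
      {y ∈ p0.lv | T.mp 1 l y ≠ U.mp 0 m (s y)} id (p0.lv_finite.subset fun _ h => h.1) ⟨y, hy, hc⟩
    have h4 : s y ∈ (p0.map s).lv := lv_map _ _ ▸ ⟨y, h1, rfl⟩
    obtain ⟨s0, h5, h6⟩ := solid_tail G.solid h4
    have h7 : In (b + 1) s0 := fun z hz => G.mem z (h5 ▸ hz : z ∈ {z ∈ (p0.map s).lv | s y < z}).1
    have h8 : s y < b + 1 := G.mem _ h4
    refine th_lv (PresSt.pres hi.pm.ls hQ cf (KE.le1 h8) h7 h6)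
      ((G.ge _ h4).trans (KE.w_self cf.toWeak h8)) (cf.maps _ h8) (KN.in_map' cf.maps h7)
      fun z hz => ?_
    obtain ⟨z, g1, rfl⟩ : z ∈ T.mp 1 l '' p0.lv := lv_map _ _ ▸ hz
    rcases le_or_gt z y with g2 | g2
    · exact Or.inl (((KE.w_le sT.toWeak (hp z g1) (hp y h1)).2 g2).trans_lt
        (lt_of_le_of_ne (o.dj nd hb y (KE.le1 (hp y h1))) h2))
    · have g3 : T.mp 1 l z = U.mp 0 m (s z) := by_contra fun g3 => (h3 z ⟨g1, g3⟩).not_gt g2
      refine Or.inr (lv_map _ _ ▸ ⟨s z, h5 ▸ ⟨lv_map _ _ ▸ ⟨z, g1, rfl⟩, ?_⟩, g3.symm⟩)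
      exact (KE.w_lt hi.str.toWeak (hp y h1) (hp z g1)).2 g2
  refine ⟨hb, nd, he, fun y hy => ?_⟩
  have hyb : y ≤ U.b 0 := bU o ▸ hy.le.trans (hr.le.trans (rho_le _ _))
  rcases eq_or_ne m 0 with rfl | h0
  · exact mp_id hU le_rfl hyb
  obtain ⟨j, h1, h2, h3, h4, h5, h6⟩ := first hU nd (pos_iff_ne_zero.2 h0)
  have hs := hU.step j h1 h2
  rw [h6 y hyb]
  refine seg_fix hU h1 h2 le_rfl h5 (hy.trans_le (not_lt.1 fun h7 => no (backU o hk le_rfl ?_)))
  have h8 : U.ka j ≤ U.b 0 := h4 ▸ (ka_lt hs).le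
  rw [he]
  refine named_mono (PresSt.pres hi.pm.ls hQ cf (bU o ▸ h8) G.mem (G.old _ h7)) le_rfl ?_
  rw [h6 _ h8, Function.comp, im_ka hs]
  exact (hk.trans (o.laU j h2)).trans (nd_self hU le_rfl h5
    (TreeSt.la_le hU h2 le_self_add (Order.add_one_le_iff.2 h2)))

theorem cmp_out (hi : PhxIn C g E b E1 b1 s a) (o : PhxOut g E b E1 b1 s a T l U m) (hk : k ≤ a)
    (hr : k < rho E b) (hp : In (b1 + 1) p0) (G : Greedy E (b + 1) k (p0.map s)) :
    T.b l = U.b m ∧ U.ND 0 m ∧ ∀ y < k, U.mp 0 m y = y :=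
  let ⟨h1, h2, _, h3⟩ := cmp_par hi o hk hr hp G
  ⟨h1, h2, h3⟩

end Pool.Agent.KM.PC
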