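import Pool.Agent.Lib.MP_5c0be7_lc.P.Th
import Pool.Agent.Lib.MP_5c0be7_lc.O.FO3
import Pool.Agent.Lib.MP_5c0be7_lc.O.F3c
import Pool.Agent.Lib.MP_5c0be7_lc.K.EvI

/-!
Project KM, block F12: theories over the successor of the critical point of a close map.
-/

namespace Pool.Agent.KM.PE

open Ordinal Tr F3 PT
open scoped Classical

universe u

theorem df_addn (n : ℕ) : Df.{u} fun _ _ z => z.fst.lab = z.snd.lab + n := by
  induction n with
  | zero => simpa using Df.oeq (On.lab IsOp.id.fst) (On.lab IsOp.id.snd)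
  | succ n ih =>
    refine (Df.bex (P := fun _ _ y z => y.lab = z.snd.lab + n ∧ z.fst.lab = y.lab + 1)
      (On.lab IsOp.id.fst) ((ih.pre (IsOp.id.fst.pair IsOp.id.snd.snd)).and
      (Df.eq_succ (On.lab IsOp.id.snd.fst) (On.lab IsOp.id.fst)))).congr fun _ _ z _ => ?_
    rw [add_succ_cast]
    exact ⟨fun ⟨y, _, h1, h2⟩ => h1 ▸ h2, fun h => ⟨leaf (z.snd.lab + n), by simp [h], rfl, h⟩⟩

/-- `t` is the value of a term at a level with the same theory as the top level. -/
def Cp0 (E : Seq.{u}) (B : Ordinal.{u}) (t z : Tr.{u}) : Prop :=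
  ∃ c < B, rho E c ≤ z.fst.lab ∧
    (∀ q, In z.fst.lab q → (Th E c (pp E c) q ↔ Th E B (pp E B) q)) ∧
    ev E c z.snd.fst (node z.snd.snd (pp E c)) = some t

theorem df_cp0 : Df.{u} fun E B w => Cp0 E B w.fst w.snd := by
  unfold Cp0
  repeat' first
    | exact Fn.id | exact IsOp.id | apply IsOp.fst | apply IsOp.snd | apply On.lab | exact On.top
    | apply Df.th' | apply Df.ev_eq | apply Df.ole | apply On.rho | apply Fn.pp
    | apply Df.ball | apply Df.oex | apply Df.and | apply Df.iff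
    | apply Fn.pair | apply Fn.fst | apply Fn.snd

variable {E E' : Seq.{u}} {a b c d d' k t g : Ordinal.{u}} {x : Tr.{u}}
  {j : Ordinal.{u} → Ordinal.{u}}

theorem w_par (h : Weak E d E' d' j) (ha : a + 1 < d) : par E' (j a) = (par E a).map j := by
  have := h.comm _ ha parc .nil (by simp)
  rw [KE.w_succ h ha, map_nil, ev_parc (by simp), ev_parc (by simp)] at this
  exact Option.some.inj this

theorem w_pp (h : Weak E d E' d' j) (ha : a + 1 < d) : pp E' (j a) = (pp E a).map j := by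
  have := congrArg Tr.fst (w_par h ha)
  rwa [map_fst] at this

theorem lev_gen (h : Lev E a) (hk : rho E a ≤ k) : Gen E a k (pp E a) :=
  gen_mono (ss_pp h.1).2.2.2 hk

theorem cp0_iff (hE' : LS E' d') (h : Weak E d E' d' j) (hf : ∀ y < k, j y = y) (ha : a + 1 < d)
    (hk : k ≤ a) (hr : rho E a ≤ k) (hj : a < j a) (ag : Agree E E' (a + 1)) {c1 v u : Tr.{u}}
    (e : ev E a c1 (node v (pp E a)) = some u) (y : Tr.{u}) :
    Cp0 E' (j a) y (node (leaf k) (node c1 v)) ↔ y = u := by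
  have h0 := KL.ev_lt ag (lt_add_one a)
  have h1 : pp E a = pp E' a := ppL_congr h0
  have h2 : rho E' a ≤ k := (rhoL_congr h0).ge.trans hr
  have h3 : ∀ q, In k q → (Th E' a (pp E' a) q ↔ Th E' (j a) (pp E' (j a)) q) := fun q hq => by
    rw [w_pp h ha, th_comm (h.comm a ((lt_add_one a).trans ha)) hf hk (in_pp E a) hq, ← h1]
    simp only [ThL, h0 a le_rfl]
  have h4 : j a < d' := h.maps a ((lt_add_one a).trans ha)
  rw [h0 a le_rfl, h1] at e
  refine ⟨fun ⟨c, g1, g2, g3, g4⟩ => ?_, fun g => ⟨a, hj, h2, h3, g ▸ e⟩⟩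
  obtain rfl : c = a := iso (fun q hq => (g3 q hq).trans (h3 q hq).symm)
    (lev_gen (hE' c (g1.trans h4)) g2) (lev_gen (hE' a (hj.trans h4)) h2)
  exact Option.some.inj (g4.symm.trans e)

/-- The set defined from the source of the close map. -/
def Dq (n : ℕ) (m : Tr.{u} → Tr.{u}) (E : Seq.{u}) (B : Ordinal.{u}) (q z : Tr.{u}) : Prop :=
  ∃ a < z.snd.fst.lab, z.fst.lab ≤ a ∧ rho E a ≤ z.fst.lab ∧ ∃ y, In z.snd.fst.lab y ∧
    (∃ a', y = leaf a') ∧ y.lab = a + n ∧ ∃ r, In z.fst.lab r ∧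
      ev E a r.fst (node r.snd (pp E a)) = some q.snd ∧
      (ev E B (m q.fst) (node (node y (node r.fst.erase r.snd)) z.snd.snd)).isSome

theorem df_dq (n : ℕ) {m : Tr.{u} → Tr.{u}} (hm : IsOp m) :
    Df fun E B w => Dq n m E B w.fst w.snd := by
  have h := (df_addn.{u} n).pre (IsOp.id.fst.pair IsOp.id.snd.fst)
  have h' : Fn.{u} fun _ _ w => m w.snd.snd.snd.fst.fst :=
    Fn.op (hm.comp IsOp.id.snd.snd.snd.fst.fst)
  unfold Dq
  repeat' first
    | exact h | exact h' | exact Fn.id | exact IsOp.id | apply IsOp.fst | apply IsOp.snd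
    | apply On.lab | exact On.top | apply Df.isleaf
    | apply Df.ev_eq | apply Df.ev_some | apply Df.ole | apply On.rho | apply Fn.pp
    | apply Df.bex | apply Df.oex | apply Df.and
    | apply Fn.pair | apply Fn.erase | apply Fn.fst | apply Fn.snd

theorem eta_named (hE : LS E (b + 1)) (hE' : LS E' d') (hc : c < b)
    (cl : Close E (c + 1) E' d' j) (hf : ∀ y < k, j y = y) (hj : t ≤ j k) (hkt : k < t)
    (htc : t ≤ c) (lim : ¬ Suc t) (top : TopC E k t) (ag : Agree E E' t) (hg : g ≤ t)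
    (hr : rho E (c + 1) ≤ k) (hb : k < rho E b) (hx : In d' x) :
    Named E (b + 1) g (Th E' d' x) := by
  obtain ⟨n, ⟨cG, eG, hG⟩, -⟩ := df_cp0.{u}.least
  obtain ⟨o1, o2, H1⟩ := ex_sq (f := fun y : Tr.{u} =>
    node y.snd.fst (node cG (node y.fst.fst y.snd.snd))) (g := fun y => node y.fst.snd y.snd.fst.snd)
    (by fun_prop (disch := exact in_zero.2 eG)) (by fun_prop)
  have hkc : k < c + 1 := KE.lt1 (hkt.le.trans htc)
  have hkd : k < d' := (hkt.trans_le hj).trans (cl.maps k hkc)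
  obtain ⟨o, w, hw, H2⟩ := cl.wrap (node (leaf k) x) (by simp [hkd, hx])
  obtain ⟨o3, ho3⟩ : IsOp fun y : Tr.{u} => bop o (sq o1 o2 callc y) :=
    IsP.op (by fun_prop (disch := exact in_of_lv (by simp) _))
  have key : ∀ a, a < t → k ≤ a → rho E a ≤ k → ∀ c1 v u q, In k v →
      ev E a c1 (node v (pp E a)) = some u →
      ((ev E (c + 1) (bop o3 q) (node (node (leaf (a + n)) (node c1.erase v)) w)).isSome ↔
        (ev E' d' q (node u x)).isSome) := by
    intro a h1 h2 h3 c1 v u q hv e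
    have h4 : a + n < c + 1 := (add_nat_lt lim h1 n).trans_le (htc.trans le_self_add)
    have h5 : a + 1 < c + 1 := (not_suc_iff.1 lim a h1).trans_le (htc.trans le_self_add)
    have h6 : a < j a := (h1.trans_le hj).trans_le
      ((KE.w_le cl.toWeak hkc ((lt_add_one a).trans h5)).2 h2)
    have h7 : j a + n < d' := cl.toWeak.add_nat n h4 ▸ cl.maps _ h4
    rw [ho3, ← H2 _ _ (by simp [h4, hv.mono hkc.le]), map_node, map_node, map_leaf, map_erase,
      map_fix hf hv, cl.toWeak.add_nat n h4, H1 E' d' _ _ _ (by simp [h7, hkd, hx, hv.mono hkd.le])]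
    simp only [fst_node, snd_node]
    have h8 : (fun y => In (j a) y ∧ Cp0 E' (j a) y (node (leaf k) (node c1.erase v))) =
        fun y => y = u := funext fun y => propext (by
      rw [cp0_iff hE' cl.toWeak hf h5 h2 h3 h6
        (KL.ag_mono ag (not_suc_iff.1 lim a h1).le) (by rwa [ev_erase]) y]
      exact and_iff_right_of_imp fun e' => e' ▸ (ev_in e).mono h6.le)
    rw [ev_callc h7 _ (in_of_lf eG _), hG E' _ _ (hE'.mono h7.le),
      if_pos (by simp [h2.trans_lt h6, hv.mono (h2.trans h6.le)])]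
    simp only [fst_node, snd_node, h8]
    rw [(least_eq_some (P := fun y => y = u) (t := u)).2
      ⟨rfl, fun s hs e' => lt_irrefl' u (by rwa [e'] at hs)⟩]
    simp
  obtain ⟨t', ht'⟩ := KL.exists_next (E := E) (KE.lt1 (hb.le.trans (rho_le E b)))
  have h1 : c + 1 < t' := not_le.1 fun h => (ht'.2.2.2 _ h (KE.s1lt hc)).not_ge hr
  have h2 : t' < b + 1 := lt_of_le_of_ne ht'.2.1 fun h => by
    obtain ⟨a, g1, g2, g3⟩ := ht'.2.2.1 b (h ▸ lt_add_one b)
    exact hb.not_ge (le_antisymm (KE.le1 (h ▸ g2)) g1 ▸ g3)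
  obtain ⟨n0, i0, H3⟩ := (df_dq n (IsOp.id.of o3)).named_lim (hE.mono h2.le)
    (not_suc_of_limit (AccSt.next_lim _ _ _ _ hE ht' h2)) h1
    (z := node (leaf k) (node (leaf t) w)) (by simp [hkc, hw, htc])
  refine ⟨n0, i0.mono h2.le, fun q hq => (H3 q).trans ?_⟩
  rw [and_iff_right (hq.mono ((hg.trans htc).trans le_self_add))]
  refine ⟨fun ⟨a, g1, g2, g3, y, _, ⟨a', g4⟩, g5, r, g6, g7, g8⟩ => ?_, fun h => ?_⟩
  · obtain rfl : y = leaf (a + n) := by rw [← g5, g4]; rfl
    exact (key a g1 g2 g3 _ _ _ _ g6.snd g7).1 g8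
  · have h3 : max k q.snd.ht < t :=
      max_lt hkt ((hq.snd.mono hg).ht_lt (limit_of_not_suc lim (pos_of_gt hkt).ne'))
    obtain ⟨a, g1, g2, g3⟩ := top _ h3
    obtain ⟨c1, v, g4, g5⟩ := lev_gen (hE a (g2.trans_le ((htc.trans hc.le).trans le_self_add))) g3
      q.snd (ht_le_iff.1 ((le_max_right _ _).trans g1))
    refine ⟨a, g2, (le_max_left _ _).trans g1, g3, leaf (a + n),
      by simpa using add_nat_lt lim g2 n, ⟨_, rfl⟩, rfl, node c1.erase v, by simpa using g4,
      by simpa using g5, ?_⟩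
    simpa using (key a g2 ((le_max_left _ _).trans g1) g3 c1 v _ q.fst g4 g5).2 h

end Pool.Agent.KM.PE
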