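import Pool.Agent.Lib.MP_5c0be7_lc.P.Seg
import Pool.Agent.Lib.MP_5c0be7_lc.L.St

/-!
Project KM, block F11: comparison of the phalanx `(M, W, a)` with `M`.
-/

namespace Pool.Agent.KM

open Ordinal Tr

universe u

namespace Phx

variable {C : Cfg.{u}} {E E1 : Seq.{u}} {a b b1 g h k l m t v x : Ordinal.{u}} {T U : IT.{u}}
  {e s : Ordinal.{u} → Ordinal.{u}}

@[simp] theorem one_n : (IT.one E b).n = 0 := rfl
@[simp] theorem one_E (i) : (IT.one E b).E i = E := rfl
@[simp] theorem one_b (i) : (IT.one E b).b i = b := rfl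
@[simp] theorem two_n : (IT.two E b E1 b1 a).n = 1 := rfl
@[simp] theorem two_E0 : (IT.two E b E1 b1 a).E 0 = E := by simp [IT.two, IT.E, Nd.root]
@[simp] theorem two_b0 : (IT.two E b E1 b1 a).b 0 = b := by simp [IT.two, IT.b, Nd.root]
@[simp] theorem two_E1 : (IT.two E b E1 b1 a).E 1 = E1 := by simp [IT.two, IT.E, Nd.root]
@[simp] theorem two_b1 : (IT.two E b E1 b1 a).b 1 = b1 := by simp [IT.two, IT.b, Nd.root]
@[simp] theorem two_la : (IT.two E b E1 b1 a).la 0 = a := by simp [IT.two, IT.la, Nd.root]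
theorem two_mp (i j) : (IT.two E b E1 b1 a).mp i j x = x := by
  unfold IT.two IT.mp; dsimp only; split_ifs <;> rfl

theorem le_one' {i : Ordinal.{u}} (h : i ≤ 1) : i = 0 ∨ i = 1 := Order.le_one_iff.1 h
theorem lt_one' {i : Ordinal.{u}} (h : i < 1) : i = 0 := Order.lt_one_iff.1 h
theorem zero_lt_two' : (0 : Ordinal.{u}) < 2 := by simp
theorem one_lt_two' : (1 : Ordinal.{u}) < 2 := by simp

theorem phal_one (h : PM E (b + 1)) : (IT.one E b).Phal where
  pm := fun _ _ => h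
  id := fun _ _ _ _ => rfl
  mono := fun _ _ _ h => absurd h (by simp)
  le := fun _ h => absurd h (by simp)
  pas := fun _ h => absurd h (by simp)
  agree := fun _ _ h h' => absurd (h.trans_le h') (by simp)
  le' := fun _ _ h h' => absurd (h.trans_le h') (by simp)
  card := fun _ _ h h' => absurd (h.trans_le h') (by simp)

theorem pair01 {i j : Ordinal.{u}} (h : i < j) (h' : j ≤ 1) : i = 0 ∧ j = 1 := by
  have h0 := lt_one' (h.trans_le h')
  subst h0
  exact ⟨rfl, (le_one' h').resolve_left h.ne'⟩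

theorem phal_two (h : PM E (b + 1)) (h1 : PM E1 (b1 + 1)) (hb : a ≤ b) (hb1 : a ≤ b1)
    (hp : Pas E a) (ha : Agree E E1 a) (hc : IsCard E1 (b1 + 1) a) :
    (IT.two E b E1 b1 a).Phal where
  pm := fun i hi => by rcases le_one' hi with rfl | rfl <;> simpa
  id := fun _ _ _ _ => two_mp _ _
  mono := fun _ _ h h' => by rw [lt_one' h'] at h; exact absurd h (by simp)
  le := fun i hi => by rw [lt_one' hi]; simpa
  pas := fun i hi => by rw [lt_one' hi]; simpa
  agree := fun i j h h' => by obtain ⟨rfl, rfl⟩ := pair01 h h'; simpa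
  le' := fun i j h h' => by obtain ⟨rfl, rfl⟩ := pair01 h h'; simpa
  card := fun i j h h' => by obtain ⟨rfl, rfl⟩ := pair01 h h'; simpa

/-- The image of the critical point of an extender in a small premouse is not a cardinal. -/
theorem nocard [ActSt.{u}] [FragSt.{u}] (hE : PM E (b + 1)) (hv : v < b) (A : Act E v k t e) :
    ¬ IsCard E (b + 1) (e k) := fun hc => by
  have h0 : PM0 E v := KE.pm0_mono hE.toPM0 (hv.le.trans (lt_add_one b).le)
  exact FragSt.small h0 A (hE.small v (KE.lt1 hv.le) k t e A) le_rfl A.move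
    (FragSt.strong hE.toPM0 hv A hc (ActSt.lt h0.ls A) le_rfl)

section In

variable (H : PhxIn C g E b E1 b1 s a)
include H

theorem top : s b1 = b := (KE.s1inj (H.str.top b1 rfl)).symm

theorem str' : Strong E1 (b1 + 1) E (s b1 + 1) s := by rw [top H]; exact H.str

theorem pm' : PM0 E (s b1 + 1) := by rw [top H]; exact H.pm.toPM0

theorem good : Good E1 b1 E s := KGoodSt.strong_good H.pm1.toPM0 (pm' H) (str' H)

theorem sle (hx : x ≤ b1) : s x ≤ b := KE.le1 (H.str.maps x (KE.lt1 hx))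

theorem a_lt : a < b := H.move.trans_le (sle H H.le)

theorem a_lim : ¬ Suc a := by
  rintro ⟨c, rfl⟩
  exact ((H.card _ le_rfl (KE.lt1 H.le)).trans (F3.rho_top E1 c)).not_gt (lt_add_one c)

theorem cut1 : CutPt E1 b1 g := fun v k t e hg hv A => by
  obtain ⟨e', A', -⟩ := KActSt.good_act H.pm1.toPM0 (pm' H) (good H) hv A
  have h1 := H.cut _ _ _ _ (hg.trans (KE.w_self H.str.toWeak (KE.lt1 hv))) (sle H hv) A'
  by_contra hk
  rw [H.fix k ((not_le.1 hk).trans_le H.gle)] at h1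
  exact hk h1

theorem pas1 [ActSt.{u}] : Pas E1 a := by
  refine (H.pm1.act a (KE.lt1 H.le)).resolve_right ?_
  rintro ⟨k, t, e, A⟩
  have hk : e k < a := A.weak.maps k A.lt
  rcases H.le.lt_or_eq with h | h
  · exact ((H.card (a + 1) (lt_add_one a).le (KE.s1lt h)).trans
      (ActSt.proj (H.pm1.ls.mono (KE.s1lt h).le) A)).not_gt hk
  · obtain ⟨e', A', he⟩ := KActSt.good_act H.pm1.toPM0 (pm' H) (good H) H.le A
    obtain ⟨x, hx, hy⟩ := A'.cof a H.move
    rw [H.fix t A.dom] at hx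
    have h2 := he x hx
    rw [H.fix x (hx.trans A.dom), H.fix _ (A.weak.maps x hx)] at h2
    exact (h2 ▸ hy).not_gt (A.weak.maps x hx)

theorem agree [AgreeSt.{u}] : Agree E1 E a :=
  AgreeSt.of_fix H.pm1.toPM0 H.pm.toPM0 H.str.toWeak (H.le.trans (lt_add_one _).le) H.fix

/-- If a level of the target from `a` on projects to `h < a`, then `h` is the largest cardinal
below `a`. -/
theorem topC (hh : h < a) (hx : a ≤ x) (hb : x ≤ b) (hr : rho E x ≤ h) : TopC E1 h a := by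
  intro y hy
  have hl := not_suc_iff.1 (a_lim H)
  by_contra hn
  push Not at hn
  have h1 : ∀ z, y ≤ z → z ≤ b1 → h + 1 ≤ rho E1 z := fun z hz hz' => by
    rcases lt_or_ge z a with h2 | h2
    · exact IT.s_le (hn z hz h2)
    · exact (IT.s_le hh).trans (H.card z h2 (KE.lt1 hz'))
  rcases hb.lt_or_eq with h2 | rfl
  · have := (good H).card (h + 1) y ((hl h hh).trans_le H.le) (hy.trans_le H.le)
      (fun z hz hz' => h1 z hz hz'.le) x (by rw [H.fix y hy]; exact hy.le.trans hx)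
      (by rw [top H]; exact h2)
    rw [H.fix _ (hl h hh)] at this
    exact (IT.s_lt this).not_ge hr
  · have := (KE.strong_rho (str' H) le_rfl (hh.le.trans H.le)).2
      (IT.s_lt (h1 b1 (hy.le.trans H.le) le_rfl))
    rw [H.fix h hh, top H] at this
    exact this.not_ge hr

theorem pas [ActSt.{u}] [FragSt.{u}] [AccSt.{u}] [AgreeSt.{u}] : Pas E a := by
  have hab := a_lt H
  refine (H.pm.act a (KE.lt1 hab.le)).resolve_right ?_
  rintro ⟨k, t, e, A⟩
  have hk : e k < a := A.weak.maps k A.lt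
  have hl : LS E a := H.pm.ls.mono (hab.le.trans (lt_add_one b).le)
  have hp := ActSt.proj (H.pm.ls.mono (KE.s1lt hab).le) A
  refine nocard H.pm hab A fun z hz hz' => ?_
  rcases lt_or_ge z a with h1 | h1
  · exact ActSt.card hl A z hz h1
  · by_contra hn
    have h2 := not_le.1 hn
    obtain ⟨y, hy, hy', hr⟩ := KL.topC_ag (agree H)
      (topC H (h2.trans hk) h1 (KE.le1 hz') le_rfl) (e k) hk
    exact ((ActSt.card hl A y hy hy').trans hr).not_gt h2

end In

variable [TreeSt.{u}] [CmpSt.{u}] [BrSt.{u}] [KeySt.{u}] [KDJSt.{u}] [DJ1St.{u}]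

theorem phx [ActSt.{u}] [FragSt.{u}] [AccSt.{u}] [AgreeSt.{u}] [KIISt.{u}] [KIterSt.{u}]
    (H : PhxIn C g E b E1 b1 s a) : ∃ T l U m, PhxOut g E b E1 b1 s a T l U m := by
  have hab := a_lt H
  have hgb : g ≤ b := H.gle.trans hab.le
  have P2 := phal_two H.pm H.pm1 hab.le H.le (pas H) (KL.ag_symm (agree H)) H.card
  have P1 := phal_one H.pm
  have hag : Agree E1 E (a + 1) := fun v hv => by
    rcases (KE.le1 hv).lt_or_eq with h | rfl
    · exact agree H v h
    · funext x y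
      exact propext ⟨fun h => absurd h (pas1 H x y), fun h => absurd h (pas H x y)⟩
  obtain ⟨T, l, U, m, eT, eU, co, abT, abU, nuT, nuU⟩ := CmpSt.compare (h := a + 1)
    (KIterSt.iter P2 (KIISt.two H.ii P2 (good H) (top H) H.fix))
    (KIterSt.iter P1 (KIISt.one H.pm.toPM0 H.ii)) (by simpa using hag)
    (fun i hi => by rw [lt_one' hi]; simp) (fun i hi => absurd hi (by simp))
    (H.gle.trans (lt_add_one a).le) (H.gle.trans (lt_add_one a).le)
    (fun i hi => by
      rcases le_one' hi with rfl | rfl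
      · simpa using H.cut
      · simpa using cut1 H)
    (fun _ _ => H.cut)
  have eT2 : (IT.two E b E1 b1 a).EqLt T 2 := by
    have : (IT.two E b E1 b1 a).n + 1 = 2 := by simp [one_add_one_eq_two]
    rwa [this] at eT
  have eU1 : (IT.one E b).EqLt U 1 := by simpa using eU
  have Tn : T.n = 1 := eT2.n
  have Un : U.n = 0 := eU1.n
  have TE0 : T.E 0 = E := (eT2.E zero_lt_two').trans two_E0
  have Tb0 : T.b 0 = b := (eT2.b zero_lt_two').trans two_b0
  have Tla : T.la 0 = a := (eT2.la (by simp)).trans two_la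
  have UE0 : U.E 0 = E := eU1.E zero_lt_one
  have Ub0 : U.b 0 = b := eU1.b zero_lt_one
  have hl : (1 : Ordinal.{u}) ≤ l := Tn ▸ co.tr.le
  have hl0 : (0 : Ordinal.{u}) < l := zero_lt_one.trans_le hl
  have pT := (TreeSt.pm co.tr le_rfl).toPM0
  have pU := (TreeSt.pm co.tr' le_rfl).toPM0
  -- the branch map of `U`, read as a map into a level of the last model of `T`
  have gU : U.ND 0 m → U.b m ≤ T.b l →
      Good E b (T.E l) (U.mp 0 m) ∧ U.mp 0 m b = U.b m := fun h hb => by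
    have h1 := TreeSt.strong co.tr' le_rfl h
    rw [UE0, Ub0] at h1
    have h2 : U.mp 0 m b = U.b m := (KE.s1inj (h1.top b rfl)).symm
    have h3 := KL.strong_right (Seg.ag_right co hb) h1
    rw [← h2] at h3
    exact ⟨KGoodSt.strong_good H.pm.toPM0
      (KE.pm0_mono pT (by rw [h2]; exact add_le_add_left hb 1)) h3, h2⟩
  have gT : T.ND 0 l → T.b l ≤ U.b m →
      Good E b (U.E m) (T.mp 0 l) ∧ T.mp 0 l b = T.b l := fun h hb => by
    have h1 := TreeSt.strong co.tr le_rfl h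
    rw [TE0, Tb0] at h1
    have h2 : T.mp 0 l b = T.b l := (KE.s1inj (h1.top b rfl)).symm
    have h3 := KL.strong_right (Seg.ag_left co hb) h1
    rw [← h2] at h3
    exact ⟨KGoodSt.strong_good H.pm.toPM0
      (KE.pm0_mono pU (by rw [h2]; exact add_le_add_left hb 1)) h3, h2⟩
  have key : T.b l ≤ U.b m ∧ ∃ r, T.Root r l ∧ T.ND r l := by
    refine (Seg.outcome co).elim id ?_
    rintro ⟨hb, r, hr, hn⟩
    obtain rfl : r = 0 := nonpos_iff_eq_zero.1 (Un ▸ hr.1)
    obtain ⟨G, h2⟩ := gU hn hb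
    obtain ⟨r, hr⟩ := T.exists_root l
    rcases le_one' (Tn ▸ hr.1) with rfl | rfl
    · have := KDJSt.two H.ii (good H) (top H) H.fix eT2 co.tr abT hr hgb G (h2 ▸ hb)
      exact ⟨(h2 ▸ this.2.1).ge, 0, hr, this.1⟩
    · have := DJ1St.two1 H.ii (good H) (top H) H.fix eT2 co.tr abT hr hgb G (h2 ▸ hb)
      exact ⟨(h2 ▸ this.2.1).ge, 1, hr, this.1⟩
  obtain ⟨hb, r, hr, hn⟩ := key
  have hr1 : r = 1 := by
    refine (le_one' (Tn ▸ hr.1)).resolve_left ?_
    rintro rfl
    obtain ⟨G, h2⟩ := gT hn hb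
    obtain ⟨n0, e0, l0⟩ := KDJSt.one H.ii eU1 co.tr' abU hgb G (h2 ▸ hb)
    have hb' : T.b l = U.b m := h2 ▸ e0
    obtain ⟨G', h3⟩ := gU n0 hb'.ge
    have l1 := (KDJSt.two H.ii (good H) (top H) H.fix eT2 co.tr abT hr hgb G'
      (h3 ▸ hb'.ge)).2.2
    have ee : ∀ x ≤ b, T.mp 0 l x = U.mp 0 m x := fun x hx => le_antisymm (l1 x hx) (l0 x hx)
    obtain ⟨i, hi, hil, -, hs, hd, he⟩ := Seg.first co.tr hn hl0
    rw [Tb0] at hs he
    rcases eq_or_ne m 0 with rfl | hm
    · have h4 : T.ka i ≤ b := hs ▸ (Seg.ka_lt_st (co.tr.step i hi hil)).le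
      have h5 := ee _ h4
      rw [he _ h4, Seg.mp_id co.tr' le_rfl (Ub0 ▸ h4)] at h5
      exact (Seg.sg_move co.tr hi hil hd).ne' h5
    · obtain ⟨j, hj, hjm, -, hs', hd', he'⟩ := Seg.first co.tr' n0 (pos_iff_ne_zero.2 hm)
      rw [Ub0] at hs' he'
      exact Seg.noeq co hi hil hj hjm hd hd' hb' fun x hx _ => by
        rw [← he x (hs ▸ hx), ← he' x (hs ▸ hx), ee x (hs ▸ hx)]
  subst hr1
  have nu : ∀ j < m, a < U.nu j := fun j hj => IT.s_lt (nuU j (Un.le.trans zero_le) hj)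
  refine ⟨T, l, U, m, eT2, eU1, co, abT, abU, fun i hi hil => IT.s_lt (nuT i (Tn ▸ hi) hil), nu,
    fun j hj => ?_, hn, hb, fun h hb' x hx => ?_⟩
  · have hj0 : U.n ≤ j := Un.le.trans zero_le
    have S := co.tr'.step j hj0 hj
    have hc : IsCard (T.E l) (T.b l + 1) a := Tla ▸ TreeSt.card co.tr hl0 le_rfl
    have h1 := co.le' j hj0 hj
    obtain ⟨y, hy, hy', hr⟩ := ActSt.top ((TreeSt.pm co.tr' hj.le).ls.mono
      (S.use.le.trans (lt_add_one _).le)) S.use.act a (nu j hj)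
    rw [S.la]
    refine le_trans ?_ hr
    rw [KL.rho_lt (TreeSt.nu_agree co.tr' co.nor' hj0 hj le_rfl).1 hy',
      ← KL.rho_lt (Seg.ag_left co hb) (KE.lt1 (hy'.le.trans h1))]
    exact hc y hy (KE.lt1 (hy'.le.trans h1))
  · obtain ⟨G, h2⟩ := gU h hb'.ge
    exact (DJ1St.two1 H.ii (good H) (top H) H.fix eT2 co.tr abT hr hgb G (h2 ▸ hb'.ge)).2.2 x hx

end Phx

instance [TreeSt.{u}] [CmpSt.{u}] [BrSt.{u}] [KeySt.{u}] [KDJSt.{u}] [DJ1St.{u}] [ActSt.{u}]
    [FragSt.{u}] [AccSt.{u}] [AgreeSt.{u}] [KIISt.{u}] [KIterSt.{u}] : PhxSt.{u} :=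
  ⟨fun H => Phx.phx H⟩

end Pool.Agent.KM
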