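import Pool.Agent.Lib.MP_5c0be7_lc.P.St
import Pool.Agent.Lib.MP_5c0be7_lc.F.StTree
import Pool.Agent.Lib.MP_5c0be7_lc.F.TreeOrd
import Pool.Agent.Lib.MP_5c0be7_lc.K.Loc
import Pool.Agent.Lib.MP_5c0be7_lc.K.Nm
import Pool.Agent.Lib.MP_5c0be7_lc.K.ActI
import Pool.Agent.Lib.MP_5c0be7_lc.O.F3b

/-!
Project KM, block F11: final segments of branches and the outcome of a comparison.
-/

namespace Pool.Agent.KM.Seg

open Ordinal Tr

universe u

variable {E E' E0 : Seq.{u}} {a b b0 d d' g i j k l m x : Ordinal.{u}} {T U : IT.{u}}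
  {s : Ordinal.{u} → Ordinal.{u}} {A : Tr.{u} → Prop}

theorem named_ag (H : Agree E E' d) (h : Named E d k A) : Named E' d k A := by
  obtain ⟨t, ht, h⟩ := h
  exact ⟨t, ht, fun q hq => (KN.anm H ht).symm.trans (h q hq)⟩

/-- Names go up along weak maps that fix the stratum. -/
theorem named_up (h : Weak E d E' d' s) (hk : k ≤ d) (hf : ∀ x < k, s x = x)
    (hA : Named E d k A) : Named E' d' k A := by
  obtain ⟨t, ht, H⟩ := hA
  refine ⟨t.map s, KE.w_in h ht, fun q hq => ?_⟩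
  have e : q.map s = q := map_eq_self fun a ha => hf a (hq a ha)
  have := KN.wnm h ht (hq.mono hk)
  rw [e] at this
  exact this.trans (H q hq)

theorem core_id (hE : PM0 E (b + 1)) (hl : Lev E (b + 1)) : CoreMap E b E b id where
  toStrong := KE.strong_id
  cof := fun y hy => ⟨y, hy, le_rfl⟩
  pm := hE
  pm' := hE
  sound := hl
  fix := fun _ _ => rfl
  pp := fun _ h => h

theorem core_ag (h : CoreMap E0 b0 E b s) (H : Agree E E' (b + 1)) : CoreMap E0 b0 E' b s where
  toStrong := KL.strong_right H h.toStrong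
  cof := fun y hy => h.cof y (by rwa [KL.rho_lt H (lt_add_one b)])
  pm := h.pm
  pm' := KL.pm0_ag H h.pm'
  sound := h.sound
  fix := h.fix
  pp := fun A hA => h.pp A (named_ag (KL.ag_symm H) hA)

/-- The map from the model to which step `k` is applied into the model at `l`. -/
def sg (T : IT.{u}) (k l : Ordinal.{u}) : Ordinal.{u} → Ordinal.{u} := T.mp (k + 1) l ∘ T.im k

theorem ka_lt_ta (h : T.Step k) : T.ka k < T.ta k := h.use.act.lt
theorem ka_lt_la (h : T.Step k) : T.ka k < T.la k := h.la ▸ h.use.act.move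
theorem ta_le_st (h : T.Step k) : T.ta k ≤ T.st k := h.pred.ta_le
theorem ka_lt_st (h : T.Step k) : T.ka k < T.st k := (ka_lt_ta h).trans_le (ta_le_st h)
theorem im_ka (h : T.Step k) : T.im k (T.ka k) = T.la k := by
  rw [h.ext _ (ka_lt_ta h), h.la]
theorem la_lt_nu (h : T.Step k) : T.la k < T.nu k := by
  rw [h.la]; exact h.use.act.weak.maps _ (ka_lt_ta h)
theorem st_eq (h : T.Step k) (hd : ¬ T.Drop k) : T.st k = T.b (T.pr k) :=
  le_antisymm h.pred.st_le (not_lt.1 hd)

variable [TreeSt.{u}]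

theorem sg_strong (h : T.IsTr l) (hn : T.n ≤ k) (hk : k < l) (hd : T.ND (k + 1) l) :
    Strong (T.E (T.pr k)) (T.st k + 1) (T.E l) (T.b l + 1) (sg T k l) := by
  have S := h.step k hn hk
  have h2 := TreeSt.strong h le_rfl hd
  rw [S.b] at h2
  exact KE.strong_comp S.ult.toStrong h2

theorem sg_fix (h : T.IsTr l) (hn : T.n ≤ k) (hk : k < l) (hd : T.ND (k + 1) l)
    (hx : x < T.ka k) : sg T k l x = x := by
  have S := h.step k hn hk
  have e : T.im k x = x := by
    rw [S.ext _ (hx.trans (ka_lt_ta S)), S.use.act.fix _ hx]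
  show T.mp (k + 1) l (T.im k x) = x
  rw [e]
  exact TreeSt.fix h le_rfl hd (lt_add_one k) x (hx.trans (ka_lt_la S))

theorem la_le_sg (h : T.IsTr l) (hn : T.n ≤ k) (hk : k < l) (hd : T.ND (k + 1) l) :
    T.la k ≤ sg T k l (T.ka k) := by
  have S := h.step k hn hk
  show T.la k ≤ T.mp (k + 1) l (T.im k (T.ka k))
  rw [im_ka S]
  exact KE.w_self (TreeSt.strong h le_rfl hd).toWeak
    (KE.lt1 (TreeSt.la_le h hk (lt_add_one k).le (IT.s_le hk)))

theorem sg_move (h : T.IsTr l) (hn : T.n ≤ k) (hk : k < l) (hd : T.ND (k + 1) l) :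
    T.ka k < sg T k l (T.ka k) := (ka_lt_la (h.step k hn hk)).trans_le (la_le_sg h hn hk hd)

omit [TreeSt.{u}] in
theorem mp_id (h : T.IsTr l) (hj : j ≤ l) (hx : x ≤ T.b j) : T.mp j j x = x := by
  rcases le_or_gt j T.n with h1 | h1
  · exact h.phal.id j h1 x hx
  · rcases Ordinal.zero_or_succ_or_isSuccLimit j with rfl | ⟨k, rfl⟩ | h2
    · exact absurd h1 (by simp)
    · exact (h.step k (IT.le_s h1) (IT.s_lt hj)).id x hx
    · exact (h.lim j h1 hj h2).id x hx

/-- The first step on a branch without drops. -/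
theorem first (h : T.IsTr l) (hd : T.ND i l) (hi : i < l) :
    ∃ k, T.n ≤ k ∧ k < l ∧ T.pr k = i ∧ T.st k = T.b i ∧ T.ND (k + 1) l ∧
      ∀ x ≤ T.b i, T.mp i l x = sg T k l x := by
  obtain ⟨k, hn, hk, hp, hdr, hnd⟩ := TreeSt.next h le_rfl hd hi
  have S := h.step k hn hk
  have hik : i ≤ k := hp ▸ h.pr_le hn hk
  have h1 : T.ND i (k + 1) := hd.cut (hik.trans (lt_add_one k).le) hnd.1
  refine ⟨k, hn, hk, hp, hp ▸ st_eq S hdr, hnd, fun x hx => ?_⟩
  rw [← TreeSt.comp h le_rfl h1 hnd x hx, S.mp i hik h1 x hx, hp, mp_id h hi.le hx]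
  rfl

/-- A branch that drops ends in an unsound model. -/
theorem unsound [BrSt.{u}] [KeySt.{u}] (h : T.IsTr l) (hn : T.n ≤ k) (hk : k < l)
    (hdr : T.Drop k) (hd : T.ND (k + 1) l) : ¬ Lev (T.E l) (T.b l + 1) := fun hl => by
  have h1 := (KeySt.key (BrSt.core h hn hk hdr hd)
    (core_id (TreeSt.pm h le_rfl).toPM0 hl)).2.2 (T.ka k) (ka_lt_st (h.step k hn hk)).le
  exact (sg_move h hn hk hd).ne' h1

omit [TreeSt.{u}] in
theorem ag_left (h : T.Coit l U m) (hb : T.b l ≤ U.b m) : Agree (T.E l) (U.E m) (T.b l + 1) := by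
  have := h.agree; rwa [min_eq_left hb] at this

omit [TreeSt.{u}] in
theorem ag_right (h : T.Coit l U m) (hb : U.b m ≤ T.b l) : Agree (U.E m) (T.E l) (U.b m + 1) := by
  have := h.agree; rw [min_eq_right hb] at this; exact KL.ag_symm this

theorem lev_left (h : T.Coit l U m) (hb : T.b l < U.b m) : Lev (T.E l) (T.b l + 1) :=
  KL.lev_ev (KL.ev_suc (KL.ag_symm (ag_left h hb.le)))
    ((TreeSt.pm h.tr' le_rfl).ls _ (KE.s1lt hb))

theorem lev_right (h : T.Coit l U m) (hb : U.b m < T.b l) : Lev (U.E m) (U.b m + 1) :=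
  KL.lev_ev (KL.ev_suc (KL.ag_symm (ag_right h hb.le)))
    ((TreeSt.pm h.tr le_rfl).ls _ (KE.s1lt hb))

/-- The final segments of the two sides of a comparison are different maps. -/
theorem noeq [CmpSt.{u}] (h : T.Coit l U m) (hn : T.n ≤ i) (hi : i < l) (hn' : U.n ≤ j)
    (hj : j < m) (hd : T.ND (i + 1) l) (hd' : U.ND (j + 1) m) (hb : T.b l = U.b m)
    (e : ∀ x, x ≤ T.st i → x ≤ U.st j → sg T i l x = sg U j m x) : False := by
  have S := h.tr.step i hn hi
  have S' := h.tr'.step j hn' hj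
  have hk : T.ka i = U.ka j := by
    rcases lt_trichotomy (T.ka i) (U.ka j) with h1 | h1 | h1
    · have := e _ (ka_lt_st S).le (h1.trans (ka_lt_st S')).le
      rw [sg_fix h.tr' hn' hj hd' h1] at this
      exact absurd this (sg_move h.tr hn hi hd).ne'
    · exact h1
    · have := e _ (h1.trans (ka_lt_st S)).le (ka_lt_st S').le
      rw [sg_fix h.tr hn hi hd h1] at this
      exact absurd this.symm (sg_move h.tr' hn' hj hd').ne'
  have ht := CmpSt.ta_eq h hn hi hn' hj hk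
  refine CmpSt.nobranch h hn hi hn' hj hd hd' hk fun X a hX _ _ => ?_
  have e1 : X.map (sg T i l) = X.map (sg U j m) := map_congr fun y hy =>
    e y ((hX y hy).le.trans (ta_le_st S)) ((hX y hy).le.trans (ht ▸ ta_le_st S'))
  have h2 : In (T.b l + 1) (X.map (sg T i l)) :=
    KE.w_in (sg_strong h.tr hn hi hd).toWeak (hX.mono ((ta_le_st S).trans (lt_add_one _).le))
  show Nm (T.E l) (X.map (sg T i l)) a ↔ Nm (U.E m) (X.map (sg U j m)) a
  rw [← e1]
  exact KN.anm (ag_left h hb.le) h2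

/-- One side of a comparison does not drop and ends in an initial segment of the other side. -/
theorem outcome [CmpSt.{u}] [BrSt.{u}] [KeySt.{u}] (h : T.Coit l U m) :
    (T.b l ≤ U.b m ∧ ∃ r, T.Root r l ∧ T.ND r l) ∨
      (U.b m ≤ T.b l ∧ ∃ r, U.Root r m ∧ U.ND r m) := by
  rcases TreeSt.last h.tr le_rfl with h1 | ⟨i, hn, hi, hdr, hd⟩ <;>
    rcases TreeSt.last h.tr' le_rfl with h2 | ⟨j, hn', hj, hdr', hd'⟩
  · exact (le_total _ _).imp (fun h => ⟨h, h1⟩) fun h => ⟨h, h2⟩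
  · exact Or.inl ⟨not_lt.1 fun hb => unsound h.tr' hn' hj hdr' hd' (lev_right h hb), h1⟩
  · exact Or.inr ⟨not_lt.1 fun hb => unsound h.tr hn hi hdr hd (lev_left h hb), h2⟩
  · exfalso
    rcases lt_trichotomy (T.b l) (U.b m) with hb | hb | hb
    · exact unsound h.tr hn hi hdr hd (lev_left h hb)
    · have c1 := core_ag (BrSt.core h.tr hn hi hdr hd) (ag_left h hb.le)
      rw [hb] at c1
      exact noeq h hn hi hn' hj hd hd' hb fun x hx _ =>
        (KeySt.key c1 (BrSt.core h.tr' hn' hj hdr' hd')).2.2 x hx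
    · exact unsound h.tr' hn' hj hdr' hd' (lev_right h hb)

end Pool.Agent.KM.Seg
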