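import Pool.Agent.Lib.MP_5c0be7_lc.P.St
import Pool.Agent.Lib.MP_5c0be7_lc.O.F3b
import Pool.Agent.Lib.MP_5c0be7_lc.K.Loc
import Pool.Agent.Lib.MP_5c0be7_lc.K.Nm

/-!
Project KM, block F12: theories, the greedy parameter, levels with the same theory.
-/

namespace Pool.Agent.KM.PT

open Ordinal Tr F3
open scoped Classical

universe u

variable {E E' : Seq.{u}} {a b d d' k k' t g : Ordinal.{u}} {c p p' s x z q : Tr.{u}}
  {j : Ordinal.{u} → Ordinal.{u}} {A : Tr.{u} → Prop}

/-- The theory of a point generated by `s` is a section of the theory of `s`. -/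
theorem th_gen (H : Named E d k (Th E d s)) (hk : k' ≤ k) (hd : k < d) (hz : In k z)
    (hx : ev E d c (node z s) = some x) : Named E d k' (Th E d x) := by
  obtain ⟨o1, o2, H1⟩ := ex_sq (f := fun t : Tr.{u} => node t.fst.snd t.snd)
    (g := fun t => node t.snd.fst.fst t.fst) (by fun_prop) (by fun_prop)
  refine named_congr (named_pre H (hk.trans_lt hd) hd
    (g := fun q => node (sq o1 o2 c.erase q.fst) (node q.snd z))
    (by fun_prop (disch := first | assumption | simp)) fun q hq => by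
      simpa [hz] using hq.snd.mono hk) fun q hq => ?_
  have h1 := in_of_ev_eq hx
  simp only [ThL, fst_node, snd_node]
  rw [H1 E d _ _ _ (by simpa [hq.snd.mono (hk.trans hd.le)] using h1)]
  simp [hx]

theorem ex_val (hs : In d s) (hk : k ≤ d) (hl : ∀ a ∈ x.lv, a < k ∨ a ∈ s.lv) :
    ∃ c z, In k z ∧ ev E d c (node z s) = some x := by
  obtain ⟨w, hw, hw'⟩ := exists_list
    (S := leaf '' {a ∈ x.lv | a < k}) ((x.lv_finite.subset fun _ h => h.1).image _)
  have h2 : In k w := fun a ha => by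
    obtain ⟨_, ⟨a', h3, rfl⟩, h4⟩ := hw' a ha
    exact (show a = a' from h4) ▸ h3.2
  obtain ⟨o, ho⟩ := ex_op (q := x) (x := node w s) fun a ha =>
    (hl a ha).elim (fun h3 => Or.inl (mem_lv ((hw _).2 ⟨a, ⟨ha, h3⟩, rfl⟩) (by simp))) Or.inr
  exact ⟨opc o, w, h2, by rw [ev_opc _ (by simp [h2.mono hk, hs]), ho]⟩

theorem th_lv (H : Named E d k (Th E d s)) (hk : k' ≤ k) (hd : k < d) (hs : In d s)
    (hl : ∀ a ∈ x.lv, a < k ∨ a ∈ s.lv) : Named E d k' (Th E d x) :=
  let ⟨_, _, hz, h⟩ := ex_val (E := E) hs hd.le hl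
  th_gen H hk hd hz h

theorem map_fix (hf : ∀ y < k, j y = y) (hq : In k q) : q.map j = q :=
  map_eq_self fun a ha => hf a (hq a ha)

theorem comm_some (h : Comm E d E' d' j) (hx : In d x) :
    (ev E' d' c (x.map j)).isSome ↔ (ev E d c x).isSome := by
  rw [h c x hx, Option.isSome_map]

theorem th_comm (h : Comm E d E' d' j) (hf : ∀ y < k, j y = y) (hk : k ≤ d) (hx : In d x)
    (hq : In k q) : Th E' d' (x.map j) q ↔ Th E d x q := by
  have := comm_some (c := q.fst) h (x := node q.snd x) (by simp [hx, hq.snd.mono hk])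
  rwa [map_node, map_fix hf hq.snd] at this

theorem named_push (h : Weak E d E' d' j) (hf : ∀ y < k, j y = y) (hk : k ≤ d)
    (H : Named E d k A) : Named E' d' k A :=
  let ⟨n, hn, H⟩ := H
  ⟨n.map j, KN.in_map' h.maps hn, fun q hq => by
    have := KN.wnm h hn (hq.mono hk)
    rw [map_fix hf hq] at this
    exact this.trans (H q hq)⟩

theorem named_ag (h : Agree E E' t) (H : Named E t k A) : Named E' t k A :=
  let ⟨n, hn, H⟩ := H
  ⟨n, hn, fun q hq => (KN.anm h hn).symm.trans (H q hq)⟩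

theorem th_up (hd : a + 1 < d) (hk : k ≤ a + 1) (hx : In a x) : Named E d k (Th E a x) := by
  have h1 : In (a + 1) x := hx.mono le_self_add
  exact ((cf_low (E := E) hk (lt_add_one a) (g := fun q => q.fst) (g' := fun q => node q.snd x)
    (by fun_prop) (by fun_prop (disch := assumption))).cs fun _ _ => Iff.rfl).named hd

theorem th_succ (hd : g + 1 < d) (hs : In d s) (H : Named E d g (Th E d (node (leaf g) s))) :
    Named E d (g + 1) (Th E d s) := by
  have hg1 : In (g + 1) (leaf g) := by simp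
  obtain ⟨o1, o2, H1⟩ := ex_pre (f := fun t : Tr.{u} => node (dec t.snd.fst t.fst) t.snd.snd)
    (by fun_prop)
  refine named_congr (named_pre H hd hd
    (g := fun q => node (sq o1 o2 q.fst (opc .id)) (enc (leaf g) q.snd))
    (by fun_prop (disch := first | assumption | simp)) fun q hq => by simpa using hq.snd.enc)
    fun q hq => ?_
  simp only [ThL, fst_node, snd_node]
  rw [H1 E d _ _ (by
    simpa [hs, (lt_add_one g).trans hd] using hq.snd.enc.mono (le_self_add.trans hd.le))]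
  simp

theorem greedy_aux (k : Ordinal.{u}) : ∀ s, k ≤ b → In (b + 1) s → Solid E (b + 1) s →
    (∀ a ∈ s.lv, k ≤ a) → ¬ Named E (b + 1) k (Th E (b + 1) s) →
    ∃ k0 p, k0 ≤ b ∧ Greedy E (b + 1) k0 p := by
  induction k using WellFoundedLT.induction with
  | ind k ih =>
  intro s hk hs h1 h2 h3
  by_cases hm : ∃ k' < k, ¬ Named E (b + 1) k' (Th E (b + 1) s)
  · obtain ⟨k', h4, h5⟩ := hm
    exact ih k' h4 s (h4.le.trans hk) hs h1 (fun a ha => h4.le.trans (h2 a ha)) h5
  · have h4 : ∀ k' < k, Named E (b + 1) k' (Th E (b + 1) s) := fun k' h =>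
      by_contra fun h5 => hm ⟨k', h, h5⟩
    by_cases hc : Suc k
    · obtain ⟨g, rfl⟩ := hc
      have hg := lt_add_one g
      refine ih g hg (node (leaf g) s) (hg.le.trans hk) (by simp [hs, hg.le.trans hk])
        ⟨g, rfl, fun a ha => hg.trans_le (h2 a ha), h4 g hg, h1⟩ ?_
        fun h => h3 (th_succ (KE.lt1 hk) hs h)
      rintro a (ha | ha)
      · exact (show a = g from ha).ge
      · exact hg.le.trans (h2 a ha)
    · exact ⟨k, s, hk, hs, h1, h2, h3, h4, hc⟩

theorem greedy (E : Seq.{u}) (b : Ordinal.{u}) : ∃ k p, k ≤ b ∧ Greedy E (b + 1) k p :=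
  greedy_aux b .nil le_rfl (by simp) trivial (by simp) (diag (gen_top E b))

theorem gen_mono (h : Gen E b k p) (hk : k ≤ k') : Gen E b k' p := fun t ht =>
  let ⟨c, v, hv, h1⟩ := h t ht
  ⟨c, v, hv.mono hk, h1⟩

/-- `y` and `y'` are values of the same term. -/
def Sm (E : Seq.{u}) (k a : Ordinal.{u}) (p : Tr.{u}) (b : Ordinal.{u}) (p' : Tr.{u})
    (y y' : Ordinal.{u}) : Prop :=
  ∃ c v, In k v ∧ ev E a c (node v p) = some (leaf y) ∧ ev E b c (node v p') = some (leaf y')

theorem two_th (o : Op) (c1 c2 : Tr.{u}) : ∃ c : Tr.{u}, c.lv = ∅ ∧ ∀ (E : Seq.{u}) a v1 v2 p w1 w2,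
    ev E a c1 (node v1 p) = some w1 → ev E a c2 (node v2 p) = some w2 →
    (Th E a p (node c (node v1 v2)) ↔ bop o (node w1 w2) = .nil) := by
  refine ⟨cmp .fst (tst o) (pairc (prec (.pair .ff .snd) c1.erase)
    (prec (.pair .sf .snd) c2.erase)), by simp, fun E a v1 v2 p w1 w2 h1 h2 => ?_⟩
  have i1 := in_of_ev_eq h1
  have i2 := in_of_ev_eq h2
  have i3 : In a (node (node v1 v2) p) := by simp_all
  simp only [ThL, fst_node, snd_node]
  rw [ev_cmp, ev_pairc_some (v := w1) (w := w2) (by rw [ev_prec _ _ i3]; simpa using h1)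
    (by rw [ev_prec _ _ i3]; simpa using h2), Option.bind_some]
  exact ev_tst_isSome o (by simp [ev_in h1, ev_in h2])

theorem lt_leaf2 {x y : Ordinal.{u}} : Lt (leaf x) (leaf y) ↔ x < y := by
  refine ⟨fun h => ?_, fun h => Or.inl (KE.s1lt h)⟩
  rcases lt_trichotomy x y with h1 | rfl | h1
  · exact h1
  · exact absurd h (lt_irrefl' _)
  · exact absurd (Or.inl (KE.s1lt h1) : Lt (leaf y) (leaf x)) h.asymm

theorem sm_lt (H : ∀ q, In k q → (Th E a p q ↔ Th E b p' q)) {x x' y y'}
    (h1 : Sm E k a p b p' x x') (h2 : Sm E k a p b p' y y') : x < y ↔ x' < y' := by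
  obtain ⟨c1, v1, i1, e1, e1'⟩ := h1
  obtain ⟨c2, v2, i2, e2, e2'⟩ := h2
  obtain ⟨c, hc, h⟩ := two_th .lt c1 c2
  have := H (node c (node v1 v2)) (by simp [in_of_lv hc, i1, i2])
  rw [h _ _ _ _ _ _ _ e1 e2, h _ _ _ _ _ _ _ e1' e2'] at this
  simpa [bop, lt_leaf2] using this

theorem sm_tot (H : ∀ q, In k q → (Th E a p q ↔ Th E b p' q)) (hg : Gen E a k p) {x}
    (hx : x < a) : ∃ x' < b, Sm E k a p b p' x x' := by
  obtain ⟨c, v, hv, e⟩ := hg (leaf x) (by simpa using hx)
  have h1 : Th E b p' (node c.erase v) := (H _ (by simp [hv])).1 (by simp [ThL, e])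
  obtain ⟨w, e'⟩ := Option.isSome_iff_exists.1 (show (ev E b c (node v p')).isSome by
    simpa [ThL] using h1)
  obtain ⟨c0, hc, h⟩ := two_th (.comp .isleaf .fst) c c
  have := H (node c0 (node v v)) (by simp [in_of_lv hc, hv])
  rw [h _ _ _ _ _ _ _ e e, h _ _ _ _ _ _ _ e' e'] at this
  obtain ⟨x', rfl⟩ : ∃ x', w = leaf x' := by simpa [bop] using this
  exact ⟨x', by simpa using ev_in e', c, v, hv, e, e'⟩

theorem iso_le (H : ∀ q, In k q → (Th E a p q ↔ Th E b p' q)) (hg : Gen E a k p) : a ≤ b := by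
  have h : ∀ x x', Sm E k a p b p' x x' → x ≤ x' := by
    intro x
    induction x using WellFoundedLT.induction with
    | ind x ih =>
    intro x' h1
    by_contra hc
    have hx : x < a := by obtain ⟨_, _, _, e, _⟩ := h1; simpa using ev_in e
    obtain ⟨z, _, h2⟩ := sm_tot H hg ((not_le.1 hc).trans hx)
    exact absurd (ih x' (not_le.1 hc) z h2) (not_le.2 ((sm_lt H h2 h1).1 (not_le.1 hc)))
  exact le_of_forall_lt fun x hx =>
    let ⟨x', h1, h2⟩ := sm_tot H hg hx
    (h x x' h2).trans_lt h1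

/-- Two levels generated by `k` and parameters with the same theory are equal. -/
theorem iso (H : ∀ q, In k q → (Th E a p q ↔ Th E b p' q)) (hg : Gen E a k p)
    (hg' : Gen E b k p') : a = b :=
  le_antisymm (iso_le H hg) (iso_le (fun q hq => (H q hq).symm) hg')

end Pool.Agent.KM.PT
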